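import Pool.Agent.H24.UG.T7
import Pool.Agent.H24.AG.CB1

/-!
UNIFORM LOCAL GAP (`MP_c59857_nt`): the row UC1 (the computation in the descent).
-/

set_option autoImplicit false

open MeasureTheory ProbabilityTheory Filter Topology Finset
open scoped Nat ENNReal

namespace Pool.Agent.H24.UG

open Pool.Agent.H67.AG (avgP ul Inv Rt Av SA kap JJ TT InvZ nxt triv tow XN PN TN XX PX TX prX Fac
  Tup dl Dlt Mis bd κ₀ T_NXI T_TRI T_MN)
open Pool.Agent.H24.AG (dl_m mis_markov TX_inv)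
open Pool.Agent.H40.AG (QQ dg inv_le inv_rt rt_le set_inv_iff av_meas av_bdd bint T_PNL T_PXL
  T_PXT T_PXF T_MEM T_QQT)

section ctx

variable (c : CxE)

theorem tup_Dt : Tup c.Dt :=
  ⟨fun _ => c.Dm.comp (c.T.measurable.iterate _), fun _ _ => c.Dv _⟩

theorem tup_D1 : Tup c.D1 := ⟨fun i => ((tup_Dt c).1 i).comp measurable_fst, fun _ _ => c.Dv _⟩

theorem tup_D2 : Tup c.D2 := ⟨fun i => ((tup_Dt c).1 i).comp measurable_snd, fun _ _ => c.Dv _⟩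

theorem tup_yX (n : ℕ) (b : Fin (n + 1)) : Tup (c.yX n b) :=
  ⟨fun i => ((tup_Dt c).1 i).comp
    ((measurable_pi_apply b).comp (measurable_fst.comp measurable_snd)), fun _ _ => c.Dv _⟩

theorem tup_yL (n : ℕ) : Tup (c.yL n) :=
  ⟨fun i => ((tup_Dt c).1 i).comp (measurable_snd.comp measurable_snd), fun _ _ => c.Dv _⟩

theorem tup_yS (W L n : ℕ) (B : Set c.X) (hs : Measurable (c.sel W L n B)) :
    Tup (c.yS W L n B) := by
  refine ⟨fun i => ?_, fun _ _ => c.Dv _⟩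
  have he : (fun q : XX c.X (n + 1) => c.Dt i (q.2.1 (c.sel W L n B q))) =
      fun q => ∑ b : Fin (n + 1), if c.sel W L n B q = b then c.yX n b i q else 0 := by
    funext q
    simp [CxE.yX]
  change Measurable (fun q : XX c.X (n + 1) => c.Dt i (q.2.1 (c.sel W L n B q)))
  rw [he]
  refine Finset.measurable_sum _ fun b _ => ?_
  exact Measurable.ite (hs (measurableSet_singleton b)) ((tup_yX c n b).1 i) measurable_const

theorem dL_m (W L : ℕ) : Measurable (c.dL W L) := by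
  unfold CxE.dL
  exact Finset.measurable_sum _ fun i _ => av_meas _ _ _ (dl_m (tup_D1 c) (tup_D2 c) i)

theorem MR_m (Z : SA c.X) : Measurable (c.MR Z) := by
  unfold CxE.MR Mis
  exact Finset.measurable_sum _ fun i _ => (stronglyMeasurable_condExp.mono (rt_le _)).measurable

theorem MR_i (Z : SA c.X) : Integrable (c.MR Z) (JJ c.μ Z) := by
  unfold CxE.MR Mis
  exact integrable_finsetSum _ fun i _ => integrable_condExp

end ctx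

/-- the numbers -/
theorem uc1_num (k n g : ℕ) (γ u θ bg p ms s : ℝ) (hγ0 : 0 < γ) (hγ1 : γ ≤ 1) (hg : g * γ ≤ 2)
    (hu : 0 < u) (hθ : 0 ≤ θ)
    (hθs : θ * (10 ^ 7 * ((n : ℝ) + 1) ^ 2 * ((k : ℝ) + 1) ^ 2) ≤ γ ^ 4 * u)
    (hbg : bg ≤ γ ^ 4 * u / (10 ^ 7 * ((k : ℝ) + 1) ^ 2)) (hp : p ≤ u + θ)
    (hs : s ≤ ((n : ℝ) + 1) ^ 2 * θ)
    (hms : ms ≤ 3 * (81 / 100000 * γ ^ 2) * p + s + ((k : ℝ) + 32 * (k : ℝ) ^ 2 * g) * bg) :
    ms ≤ 25 / 10000 * (γ ^ 2 * u) ∧ ((n : ℝ) + 1) ^ 2 * θ ≤ γ ^ 2 * u / 10 ^ 7 ∧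
      θ ≤ γ ^ 2 * u / 10 ^ 7 := by
  have hn : (1 : ℝ) ≤ ((n : ℝ) + 1) ^ 2 := by
    have : (0 : ℝ) ≤ n := Nat.cast_nonneg n
    nlinarith
  have hk0 : (0 : ℝ) ≤ k := Nat.cast_nonneg k
  have hg0 : (0 : ℝ) ≤ g := Nat.cast_nonneg g
  have hk : (1 : ℝ) ≤ ((k : ℝ) + 1) ^ 2 := by nlinarith
  have hnθ : 0 ≤ ((n : ℝ) + 1) ^ 2 * θ := by positivity
  have hγ2 : γ ^ 2 ≤ 1 := pow_le_one₀ hγ0.le hγ1
  have hγ3 : γ ^ 3 ≤ γ ^ 2 := pow_le_pow_of_le_one hγ0.le hγ1 (by norm_num)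
  have hγ4 : γ ^ 4 ≤ γ ^ 2 := pow_le_pow_of_le_one hγ0.le hγ1 (by norm_num)
  have hγ4u : γ ^ 4 * u ≤ γ ^ 2 * u := mul_le_mul_of_nonneg_right hγ4 hu.le
  have h1 : ((n : ℝ) + 1) ^ 2 * θ ≤ γ ^ 2 * u / 10 ^ 7 := by
    rw [le_div_iff₀ (by norm_num)]
    calc ((n : ℝ) + 1) ^ 2 * θ * 10 ^ 7 ≤ (((n : ℝ) + 1) ^ 2 * θ) * 10 ^ 7 * ((k : ℝ) + 1) ^ 2 :=
          le_mul_of_one_le_right (by positivity) hk
      _ = θ * (10 ^ 7 * ((n : ℝ) + 1) ^ 2 * ((k : ℝ) + 1) ^ 2) := by ring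
      _ ≤ γ ^ 4 * u := hθs
      _ ≤ γ ^ 2 * u := hγ4u
  have h2 : θ ≤ γ ^ 2 * u / 10 ^ 7 := (le_mul_of_one_le_left hθ hn).trans h1
  have h3 : ((k : ℝ) + 32 * (k : ℝ) ^ 2 * g) * bg ≤ 65 * (γ ^ 2 * u / 10 ^ 7) := by
    have h4 : ((k : ℝ) + 32 * (k : ℝ) ^ 2 * g) * bg ≤
        ((k : ℝ) + 32 * (k : ℝ) ^ 2 * g) * (γ ^ 4 * u / (10 ^ 7 * ((k : ℝ) + 1) ^ 2)) :=
      mul_le_mul_of_nonneg_left hbg (by positivity)
    refine h4.trans ?_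
    have h5 : ((k : ℝ) + 32 * (k : ℝ) ^ 2 * g) * γ ≤ 65 * ((k : ℝ) + 1) ^ 2 := by
      have h6 : 32 * (k : ℝ) ^ 2 * (g * γ) ≤ 32 * (k : ℝ) ^ 2 * 2 :=
        mul_le_mul_of_nonneg_left hg (by positivity)
      have h7 : (k : ℝ) * γ ≤ k := mul_le_of_le_one_right hk0 hγ1
      nlinarith
    rw [mul_div_assoc', mul_div_assoc', div_le_div_iff₀ (by positivity) (by norm_num)]
    calc ((k : ℝ) + 32 * (k : ℝ) ^ 2 * g) * (γ ^ 4 * u) * 10 ^ 7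
        = (((k : ℝ) + 32 * (k : ℝ) ^ 2 * g) * γ) * (γ ^ 3 * (u * 10 ^ 7)) := by ring
      _ ≤ (65 * ((k : ℝ) + 1) ^ 2) * (γ ^ 3 * (u * 10 ^ 7)) :=
          mul_le_mul_of_nonneg_right h5 (by positivity)
      _ ≤ (65 * ((k : ℝ) + 1) ^ 2) * (γ ^ 2 * (u * 10 ^ 7)) :=
          mul_le_mul_of_nonneg_left (mul_le_mul_of_nonneg_right hγ3 (by positivity))
            (by positivity)
      _ = _ := by ring
  refine ⟨?_, h1, h2⟩
  have h7 : 3 * (81 / 100000 * γ ^ 2) * p ≤ 3 * (81 / 100000 * γ ^ 2) * (u + θ) := by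
    refine mul_le_mul_of_nonneg_left hp (by positivity)
  have h8 : 3 * (81 / 100000 * γ ^ 2) * (u + θ) ≤ 243 / 100000 * (γ ^ 2 * u) + θ := by
    nlinarith [mul_le_mul_of_nonneg_right hγ2 hθ]
  have h9 : 0 < γ ^ 2 * u := by positivity
  linarith

theorem pf_UC1 (hnx : T_NXI) (htri : T_TRI) (hmn : T_MN) (hms : T_UMS) (hslv : T_USV)
    (hlmd : T_ULD) (hlmf : T_ULF) (hpnl : T_PNL) (hpxl : T_PXL) (hpxt : T_PXT) (hpxf : T_PXF)
    (hmem : T_MEM) (hqqt : T_QQT) : T_UC1 := by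
  rintro c Z hZ ⟨n, w, L, g, X1, X1', R, θ, hw, hL, hθ, ⟨h, hLh⟩, hg1, hg2, hRp, hX1, hX1g, hX1pos, hX1', hsd,
    hRT, hRa, hR1, hR2, hRx, hLam, hdL, hBG, hθs, hlast⟩
  have := hRp
  have hT : MeasurePreserving c.T c.μ c.μ := c.erg.toMeasurePreserving
  have hW : 0 < c.W w := Nat.mul_pos c.Qpos (Nat.factorial_pos w)
  refine ⟨w, X1, X1', R, θ, hRp, hX1, hX1g, hX1', hsd, hRT, hRa, hR1, hR2, hRx, ?_⟩
  obtain ⟨hZi, hZle, hRt⟩ := hnx c.X c.μ c.T Z c.erg hZ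
  obtain ⟨Z', hZ'⟩ : ∃ Z', Z' = nxt c.μ c.T Z := ⟨_, rfl⟩
  rw [← hZ'] at hdL hBG hlast hZi hZle hRt ⊢
  have hX1'Z : MeasurableSet[Z'.1] X1' := hRt _ (inv_rt c.T hW _ hX1')
  have hX1'm : MeasurableSet X1' := Z'.2 _ hX1'Z
  have hX1m : MeasurableSet X1 := rt_le c.T _ hX1
  obtain ⟨hPp, hP1, hP2, hP3, hP4, hP5⟩ := hpxl c.X c.μ Z' (n + 1) R hR1 hR2
  obtain ⟨hN1, hN2, hN3, hN4, hN5⟩ := hpnl c.X c.μ Z' (n + 1)
  have hTX := hpxt c.X c.μ c.T Z' (n + 1) R hT hZi hR1 hR2 hRT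
  obtain ⟨hF1, hF2, hF3, hF4, hF5, hF6, hF7, hF8, hF9⟩ :=
    hpxf c.X c.μ c.T Z' (n + 1) R hT hZi hR1 hR2 hRT
  obtain ⟨hQp, hQT, hQ1, hQ2⟩ := hqqt c.X c.μ c.T Z' R hT hZi hR1 hR2 hRT
  obtain ⟨hM1, hM2⟩ := (hmem c.X c.μ Z' (n + 1) X1' hX1'Z).2 R hR1 hR2
  obtain ⟨P, hP⟩ : ∃ P, P = PX c.μ Z' (n + 1) R := ⟨_, rfl⟩
  rw [← hP] at hBG hlast hPp hP1 hP2 hP4 hP5 hTX hF1 hF4 hF5 hM2
  simp only [← hP] at hP3 hF2 hF3 hF9 hM1
  have := hPp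
  have := hQp
  obtain ⟨A, hA⟩ : ∃ A, A = {q : XX c.X (n + 1) | q.1.1 ∈ X1'} := ⟨_, rfl⟩
  have hAI : MeasurableSet[Inv (TX c.T (n + 1)) (c.W w)] A := by rw [hA]; exact TX_inv _ _ _ hX1'
  have hIle := inv_le (TX c.T (n + 1)) (c.W w)
  have hAm : MeasurableSet A := hIle _ hAI
  have hPA : P.real A = c.μ.real X1' := by
    rw [hA]
    exact (hR1.comp hP1).measureReal_preimage hX1'm.nullMeasurableSet
  have hμ := abs_le.1 ((abs_measureReal_sub_le_measureReal_symmDiff hX1m.nullMeasurableSet hX1'm.nullMeasurableSet).trans hsd)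
  have hsel := (hslv c Z' X1' (c.W w) L n 0 P hTX hW hL hX1').1
  have tS := tup_yS c (c.W w) L n X1' hsel
  have tL := tup_yL c n
  have tX := fun b => tup_yX c n b
  -- the mismatch of the selected reference and the last point
  have hpair : ∀ a b : Fin (n + 1), a ≠ b →
      MeasurePreserving (fun q : XX c.X (n + 1) => (q.2.1 a, q.2.1 b)) P (JJ c.μ Z') :=
    fun a b hab => (hN5 a b hab).comp hP2
  have hms' := hms c Z' X1' (c.W w) L n h g P hTX hW hL hLh hg1 hX1' (fun a b hab =>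
    (hpair a b hab).integrable_comp_of_integrable (MR_i c Z'))
  have hpi : ∑ a : Fin (n + 1), ∑ b : Fin (n + 1), (if a = b then 0 else
      ∫ q, |c.dL (c.W w) L (q.2.1 a, q.2.1 b) - c.MR Z' (q.2.1 a, q.2.1 b)| ∂P) ≤
      ((n : ℝ) + 1) ^ 2 * θ := by
    have h1 : ∀ a b : Fin (n + 1), (if a = b then 0 else
        ∫ q, |c.dL (c.W w) L (q.2.1 a, q.2.1 b) - c.MR Z' (q.2.1 a, q.2.1 b)| ∂P) ≤ θ := by
      intro a b
      split_ifs with hab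
      · exact hθ
      · have h2 : ∫ q, |c.dL (c.W w) L (q.2.1 a, q.2.1 b) - c.MR Z' (q.2.1 a, q.2.1 b)| ∂P =
            ∫ q, |c.dL (c.W w) L q - c.MR Z' q| ∂(JJ c.μ Z') := by
          rw [← (hpair a b hab).map_eq, integral_map (hpair a b hab).aemeasurable]
          exact ((dL_m c (c.W w) L).sub (MR_m c Z')).abs.aestronglyMeasurable
        rw [h2]
        exact hdL
    calc _ ≤ ∑ _a : Fin (n + 1), ∑ _b : Fin (n + 1), θ :=
          Finset.sum_le_sum fun a _ => Finset.sum_le_sum fun b _ => h1 a b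
      _ = ((n : ℝ) + 1) ^ 2 * θ := by
          simp only [Finset.sum_const, Finset.card_univ, Fintype.card_fin, nsmul_eq_mul]
          push_cast
          ring
  obtain ⟨ms, hmse⟩ : ∃ ms, ms = ∑ i, P.real (A ∩ {q | c.yS (c.W w) L n X1' i q ≠ c.yL n i q}) :=
    ⟨_, rfl⟩
  have hms2 : ms ≤ 3 * c.m1 * P.real A + (∑ a : Fin (n + 1), ∑ b : Fin (n + 1), (if a = b then 0 else
      ∫ q, |c.dL (c.W w) L (q.2.1 a, q.2.1 b) - c.MR Z' (q.2.1 a, q.2.1 b)| ∂P)) +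
      ((c.k : ℝ) + 32 * (c.k : ℝ) ^ 2 * g) * P.real (c.BG Z' (c.W w) L n X1') := by
    rw [hmse, hA]
    exact hms'
  obtain ⟨hn1, hn2, hn3⟩ := uc1_num c.k n g c.γ (c.μ.real X1) θ _ (P.real A) ms _ c.γ0 c.γ1 hg2 hX1pos hθ hθs hBG
    (by rw [hPA]; linarith) hpi hms2
  -- the asymptotic error of the selected reference
  have hl1 := hlmd (XX c.X (n + 1)) P (TX c.T (n + 1)) c.k c.β c.σ (c.W w) (c.U w)
    (c.yS (c.W w) L n X1') (c.yL n) A hTX c.σv hW (c.hU w) tS tL hAI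
  rw [← hmse] at hl1
  have hl2 := hlmf (XX c.X (n + 1)) c.X P c.μ (TX c.T (n + 1)) c.T (fun q => q.2.2) c.k c.β c.σ
    (c.W w) (c.U w) c.Dt A X1' c.σv hF4 (tup_Dt c) hAm hX1'm
  have hl3 : P.real (A \ (fun q : XX c.X (n + 1) => q.2.2) ⁻¹' X1') ≤ θ := by
    have h1 : P.real (A \ (fun q : XX c.X (n + 1) => q.2.2) ⁻¹' X1') =
        P.real ((fun q : XX c.X (n + 1) => q.1) ⁻¹' {r | r.1 ∈ X1' ∧ r.2 ∉ X1'}) := by
      refine measureReal_congr ?_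
      filter_upwards [hM2] with q hq
      have h2 : (q ∈ A \ (fun q : XX c.X (n + 1) => q.2.2) ⁻¹' X1') ↔
          (q ∈ (fun q : XX c.X (n + 1) => q.1) ⁻¹' {r | r.1 ∈ X1' ∧ r.2 ∉ X1'}) := by
        rw [hA]
        change (q.1.1 ∈ X1' ∧ q.2.2 ∉ X1') ↔ (q.1.1 ∈ X1' ∧ q.1.2 ∉ X1')
        rw [hq]
      exact propext h2
    have hm : MeasurableSet {r : c.X × c.X | r.1 ∈ X1' ∧ r.2 ∉ X1'} :=
      (measurable_fst hX1'm).inter (measurable_snd hX1'm.compl)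
    rw [h1, hP1.measureReal_preimage hm.nullMeasurableSet]
    refine (measureReal_mono ?_).trans hRx
    intro r hr
    exact fun h => hr.2 (h.1 hr.1)
  have hl4 : Lm (c.U w) (c.W w) P (TX c.T (n + 1)) c.β c.σ (c.yS (c.W w) L n X1') A ≤
      4 * κ₀ * c.γ ^ 3 * c.μ.real X1 + 2 * θ + ms := by
    have h1 : Lm (c.U w) (c.W w) P (TX c.T (n + 1)) c.β c.σ (c.yL n) A =
        Lm (c.U w) (c.W w) P (TX c.T (n + 1)) c.β c.σ (fun i q => c.Dt i q.2.2) A := rfl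
    rw [h1] at hl1
    linarith
  -- the exceptional sets
  have hb1 : P.real (A ∩ {q | ∀ b, c.γ / 8 < Mis P (Inv (TX c.T (n + 1)) (c.W w))
      (c.yS (c.W w) L n X1') (c.yX n b) q}) ≤ 8 / 100 * c.μ.real X1 := by
    rw [← hA] at hlast
    have hκ : κ₀ = 1 / 10000 := rfl
    rw [hκ] at hl4
    have hγ0 := c.γ0
    have hγ3 : c.γ ^ 3 ≤ c.γ ^ 2 := pow_le_pow_of_le_one hγ0.le c.γ1 (by norm_num)
    have h1 : c.γ ^ 3 * c.μ.real X1 ≤ c.γ ^ 2 * c.μ.real X1 :=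
      mul_le_mul_of_nonneg_right hγ3 hX1pos.le
    have h0 : 0 < c.γ ^ 2 * c.μ.real X1 := by positivity
    have h2 : Lm (c.U w) (c.W w) P (TX c.T (n + 1)) c.β c.σ (c.yS (c.W w) L n X1') A ≤
        31 / 10000 * (c.γ ^ 2 * c.μ.real X1) := by linarith
    have h3 : 20 / c.γ ^ 2 * Lm (c.U w) (c.W w) P (TX c.T (n + 1)) c.β c.σ
        (c.yS (c.W w) L n X1') A ≤ 20 / c.γ ^ 2 * (31 / 10000 * (c.γ ^ 2 * c.μ.real X1)) :=
      mul_le_mul_of_nonneg_left h2 (by positivity)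
    have h4 : 20 / c.γ ^ 2 * (31 / 10000 * (c.γ ^ 2 * c.μ.real X1)) =
        62 / 1000 * c.μ.real X1 := by
      field_simp
      norm_num
    refine hlast.trans ?_
    linarith
  have hnn : ∀ᵐ q ∂P, 0 ≤ Mis P (Inv (TX c.T (n + 1)) (c.W w)) (c.yS (c.W w) L n X1')
      (c.yL n) q := by
    filter_upwards [(htri (XX c.X (n + 1)) (Inv (TX c.T (n + 1)) (c.W w)) P c.k
      (c.yS (c.W w) L n X1') (c.yL n) (c.yL n) hIle tS tL tL).2.2] with q hq using hq.1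
  have hb2 := mis_markov (Inv (TX c.T (n + 1)) (c.W w)) hIle tS tL hAI hnn (c.γ / 8)
  rw [← hmse] at hb2
  have hb3 : P.real (A ∩ {q | c.γ / 8 < Mis P (Inv (TX c.T (n + 1)) (c.W w))
      (c.yS (c.W w) L n X1') (c.yL n) q}) ≤ 2 / 100 * c.μ.real X1 := by
    have hγ0 := c.γ0
    have h1 := hb2.trans hn1
    have h2 : c.γ / 8 * P.real (A ∩ {q | c.γ / 8 < Mis P (Inv (TX c.T (n + 1)) (c.W w))
      (c.yS (c.W w) L n X1') (c.yL n) q}) ≤ c.γ / 8 * (2 / 100 * c.μ.real X1) := by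
      refine h1.trans ?_
      have h3 : c.γ ^ 2 * c.μ.real X1 ≤ c.γ * c.μ.real X1 := by
        refine mul_le_mul_of_nonneg_right ?_ hX1pos.le
        rw [sq]
        exact mul_le_of_le_one_right hγ0.le c.γ1
      linarith
    exact le_of_mul_le_mul_left h2 (by positivity)
  -- the good set
  have hsub : A ⊆ (A ∩ {q | (∃ b, Mis P (Inv (TX c.T (n + 1)) (c.W w))
      (c.yS (c.W w) L n X1') (c.yX n b) q ≤ c.γ / 8) ∧
      Mis P (Inv (TX c.T (n + 1)) (c.W w)) (c.yS (c.W w) L n X1') (c.yL n) q ≤ c.γ / 8}) ∪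
      ((A ∩ {q | ∀ b, c.γ / 8 < Mis P (Inv (TX c.T (n + 1)) (c.W w))
        (c.yS (c.W w) L n X1') (c.yX n b) q}) ∪
      (A ∩ {q | c.γ / 8 < Mis P (Inv (TX c.T (n + 1)) (c.W w)) (c.yS (c.W w) L n X1')
        (c.yL n) q})) := by
    intro q hq
    by_cases h1 : ∃ b, Mis P (Inv (TX c.T (n + 1)) (c.W w))
      (c.yS (c.W w) L n X1') (c.yX n b) q ≤ c.γ / 8
    · by_cases h2 : Mis P (Inv (TX c.T (n + 1)) (c.W w)) (c.yS (c.W w) L n X1') (c.yL n) q ≤ c.γ / 8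
      · exact Or.inl ⟨hq, h1, h2⟩
      · exact Or.inr (Or.inr ⟨hq, not_le.1 h2⟩)
    · refine Or.inr (Or.inl ⟨hq, fun b => ?_⟩)
      exact not_le.1 fun h2 => h1 ⟨b, h2⟩
  have hG1 := (measureReal_mono (μ := P) hsub).trans ((measureReal_union_le _ _).trans
    (add_le_add le_rfl (measureReal_union_le _ _)))
  have hG2 : P.real (A ∩ {q | (∃ b, Mis P (Inv (TX c.T (n + 1)) (c.W w))
      (c.yS (c.W w) L n X1') (c.yX n b) q ≤ c.γ / 8) ∧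
      Mis P (Inv (TX c.T (n + 1)) (c.W w)) (c.yS (c.W w) L n X1') (c.yL n) q ≤ c.γ / 8}) ≤
      ∑ b, P.real (A ∩ {q | Mis P (Inv (TX c.T (n + 1)) (c.W w)) (c.yX n b) (c.yL n) q ≤
        c.γ / 4}) := by
    refine le_trans ?_ (measureReal_iUnion_fintype_le _)
    refine ENNReal.toReal_mono (measure_ne_top _ _) (measure_mono_ae ?_)
    have h1 := fun b => htri (XX c.X (n + 1)) (Inv (TX c.T (n + 1)) (c.W w)) P c.k
      (c.yX n b) (c.yS (c.W w) L n X1') (c.yL n) hIle (tX b) tS tL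
    filter_upwards [ae_all_iff.2 fun b => (h1 b).1, ae_all_iff.2 fun b => (h1 b).2.1]
      with q hq1 hq2 hq
    obtain ⟨hqA, ⟨b, hb⟩, hq3⟩ := hq
    refine Set.mem_iUnion.2 ⟨b, hqA, ?_⟩
    change Mis P (Inv (TX c.T (n + 1)) (c.W w)) (c.yX n b) (c.yL n) q ≤ c.γ / 4
    have h4 := hq1 b
    have h5 := hq2 b
    linarith
  -- a good reference
  obtain ⟨b, hb⟩ : ∃ b, 8 * θ < P.real (A ∩ {q | Mis P (Inv (TX c.T (n + 1)) (c.W w))
      (c.yX n b) (c.yL n) q ≤ c.γ / 4}) := by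
    by_contra hno
    push Not at hno
    have h1 : ∑ b, P.real (A ∩ {q | Mis P (Inv (TX c.T (n + 1)) (c.W w)) (c.yX n b) (c.yL n) q ≤
        c.γ / 4}) ≤ ∑ _b : Fin (n + 1), 8 * θ := Finset.sum_le_sum fun b _ => hno b
    rw [Finset.sum_const, Finset.card_univ, Fintype.card_fin, nsmul_eq_mul] at h1
    have h2 : ((n + 1 : ℕ) : ℝ) * (8 * θ) ≤ 8 * (((n : ℝ) + 1) ^ 2 * θ) := by
      push_cast
      have hn0 : (0 : ℝ) ≤ n := Nat.cast_nonneg n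
      nlinarith [mul_nonneg hn0 hθ, mul_nonneg (mul_nonneg hn0 hn0) hθ]
    have hγ2 : c.γ ^ 2 ≤ 1 := pow_le_one₀ c.γ0.le c.γ1
    have h3 : c.γ ^ 2 * c.μ.real X1 ≤ c.μ.real X1 := mul_le_of_le_one_left hX1pos.le hγ2
    linarith
  refine hb.trans_le (le_of_eq ?_)
  have hg := hF2 b
  have hmn' := (hmn (XX c.X (n + 1)) (c.X × c.X) P (QQ c.μ Z' R) (TX c.T (n + 1)) (TT c.T)
    (fun q => (q.2.1 b, q.2.2)) c.k c.D1 c.D2 hTX hQT hg (tup_D1 c) (tup_D2 c)).1 (c.W w)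
  have hSm : MeasurableSet {q : c.X × c.X | q.1 ∈ X1' ∧
      Mis (QQ c.μ Z' R) (Inv (TT c.T) (c.W w)) c.D1 c.D2 q ≤ c.γ / 4} := by
    have hMm : Measurable (Mis (QQ c.μ Z' R) (Inv (TT c.T) (c.W w)) c.D1 c.D2) := by
      unfold Mis
      exact Finset.measurable_sum _ fun i _ =>
        (stronglyMeasurable_condExp.mono (inv_le _ _)).measurable
    have h2 : MeasurableSet {q : c.X × c.X |
        Mis (QQ c.μ Z' R) (Inv (TT c.T) (c.W w)) c.D1 c.D2 q ≤ c.γ / 4} :=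
      measurableSet_le hMm measurable_const
    exact (measurable_fst hX1'm).inter h2
  rw [← hg.1.measureReal_preimage hSm.nullMeasurableSet]
  refine measureReal_congr ?_
  filter_upwards [hmn', hM1 b] with q hq1 hq2
  refine propext ?_
  change (q ∈ A ∧ Mis P (Inv (TX c.T (n + 1)) (c.W w)) (c.yX n b) (c.yL n) q ≤ c.γ / 4) ↔
    (q.2.1 b ∈ X1' ∧ Mis (QQ c.μ Z' R) (Inv (TT c.T) (c.W w)) c.D1 c.D2 (q.2.1 b, q.2.2) ≤
      c.γ / 4)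
  have h1 : Mis P (Inv (TX c.T (n + 1)) (c.W w)) (c.yX n b) (c.yL n) q =
      Mis (QQ c.μ Z' R) (Inv (TT c.T) (c.W w)) c.D1 c.D2 (q.2.1 b, q.2.2) := hq1
  rw [h1, hA]
  change (q.1.1 ∈ X1' ∧ _) ↔ _
  rw [hq2]

end Pool.Agent.H24.UG
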