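import Pool.Agent.H24.UG.Defs

/-!
UNIFORM LOCAL GAP (`MP_c59857_nt`): targets for the sections 3, 4, 5, 8.
-/

set_option autoImplicit false

open MeasureTheory ProbabilityTheory Filter Topology Finset
open scoped Nat ENNReal

namespace Pool.Agent.H24.UG

open Pool.Agent.H24.T2 (Pset)
open Pool.Agent.H67.AG (avgP ul Inv Rt Av SA kap JJ TT InvZ nxt triv tow XN PN TN XX PX TX prX Fac
  Tup dl Dlt Mis bd κ₀ Sw SwE)

/-! ### Section 3 -/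

/-- UP3: the step of the tower which controls the averages over subsets of the primes. -/
def T_UP3 : Prop := ∀ (X : Type) [MeasurableSpace X] [StandardBorelSpace X] (μ : Measure X)
  [IsProbabilityMeasure μ] (T : X ≃ᵐ X) (k W : ℕ) (β : Fin k → ℕ) (l : Fin k) (f₀ : X → ℝ)
  (ε : ℝ), Ergodic T μ → Function.Injective β → 0 < W → Even W → Measurable f₀ →
  (∀ x, |f₀ x| ≤ 1) → μ[f₀ | (tow μ T (k - 1)).1] =ᵐ[μ] 0 → 0 < ε →
  ∃ m₀ : ℕ, ∀ m, m₀ ≤ m → ∀ σ : ℕ → ℝ, Sgn σ → ∀ f : Fin k → X → ℝ, (∀ i, Measurable (f i)) →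
    (∀ i x, |f i x| ≤ 1) → f l = f₀ →
    |avgP W m fun p => σ p * ∫ x, ∏ i, f i (T^[(p - 1) * β i] x) ∂μ| ≤ ε

/-! ### Section 4 -/

/-- UDW: the dichotomy for a fixed modulus. -/
def T_UDW : Prop := ∀ (Ω : Type) [MeasurableSpace Ω] (P : Measure Ω) [IsProbabilityMeasure P]
  (T : Ω ≃ᵐ Ω) (k : ℕ) (β : Fin k → ℕ) (σ : ℕ → ℝ) (γ : ℝ) (w W : ℕ) (U : Ultrafilter ℕ)
  (y y' : Fin k → Ω → ℝ) (A : Set Ω), MeasurePreserving T P P → Function.Injective β →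
  Sgn σ → γ ≤ dn U W σ → 0 < w → 0 < W → w ! ∣ W → (U : Filter ℕ) ≤ atTop → Tup y → Tup y' →
  MeasurableSet[Inv T W] A →
  ∫ ω in A, (γ * Mis P (Inv T W) y y' ω - Mis P (Inv T W) y y' ω ^ 2) ∂P ≤
    Lm U W P T β σ y A + Lm U W P T β σ y' A +
    k * ∑ i, ∫ ω in A, |(P[dl y y' i | Inv T (W * Dlt β)]) ω - (P[dl y y' i | Inv T W]) ω| ∂P +
    (k : ℝ) ^ 2 / w * P.real A

/-- UER: the density of the errors. -/
def T_UER : Prop := ∀ c : Cx, ∃ e : c.X → ℝ, Measurable[Rt c.T] e ∧ (∀ x, 0 ≤ e x ∧ e x ≤ 1) ∧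
  ∫ x in c.Y, e x ∂c.μ ≤ κ₀ * c.γ ^ 3 * c.μ.real c.Y ∧
  ∀ ψ : c.X → ℝ, Measurable[Rt c.T] ψ → (∀ x, |ψ x| ≤ 1) →
    Tendsto (fun w => ul (c.U w) fun m => avgP (c.Q * w !) m fun p =>
      |c.σ p| * ∫ x in c.Y ∩ bd c.T c.β (c.σ p) (fun i x => c.D (c.T^[c.β i] x)) p, ψ x ∂c.μ)
      (c.V : Filter ℕ) (𝓝 (∫ x in c.Y, ψ x * e x ∂c.μ))

/-- ULE: the limit of the errors on a joint system. -/
def T_ULE : Prop := ∀ (c : CxE) (Ω : Type) [MeasurableSpace Ω] (P : Measure Ω)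
  [IsProbabilityMeasure P] (T : Ω ≃ᵐ Ω) (g : Ω → c.X) (A : Set Ω), MeasurePreserving T P P →
  Fac P T c.μ c.T g → MeasurableSet[Rt T] A → A ⊆ g ⁻¹' c.Y →
  Tendsto (fun w => Lm (c.U w) (c.W w) P T c.β c.σ (fun i ω => c.Dt i (g ω)) A) (c.V : Filter ℕ)
    (𝓝 (∫ ω in A, c.e (g ω) ∂P))

/-- UDR: the dichotomy for the rational sets. -/
def T_UDR : Prop := ∀ (c : CxE) (P : Measure (c.X × c.X)) [IsProbabilityMeasure P],
  MeasurePreserving (TT c.T) P P → MeasurePreserving Prod.fst P c.μ →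
  MeasurePreserving Prod.snd P c.μ →
  ∀ᵐ q ∂P, q.1 ∈ c.Y → q.2 ∈ c.Y →
    c.γ * Mis P (Rt (TT c.T)) c.D1 c.D2 q - Mis P (Rt (TT c.T)) c.D1 c.D2 q ^ 2 ≤ c.e q.1 + c.e q.2

/-- UEC: from the data to the data with the density of the errors. -/
def T_UEC : Prop := ∀ c : Cx, ∃ c' : CxE, c'.toCx = c

/-! ### Section 5 -/

namespace CxE

variable (c : CxE)

/-- the conditional expectation of the tuple over the tower -/
noncomputable def Db (i : Fin c.k) (x : c.X) : ℝ :=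
  max (-1) (min 1 ((c.μ[c.Dt i | (tow c.μ c.T (c.k - 1)).1]) x))

/-- the conditional variance -/
noncomputable def aa (i : Fin c.k) (x : c.X) : ℝ := 1 - c.Db i x ^ 2

/-- the sum over a subset of the indices, conditioned on `m` -/
noncomputable def VI (m : MeasurableSpace c.X) (I : Finset (Fin c.k)) (x : c.X) : ℝ :=
  ∑ i ∈ I, (c.μ[c.aa i | m]) x

end CxE

/-- UA0: the relation for the conditional expectations. -/
def T_UA0 : Prop := ∀ (c : CxE), 2 ≤ c.k → ∀ (w : ℕ) (A : Set c.X),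
  MeasurableSet[Inv c.T (c.W w)] A →
  dn (c.U w) (c.W w) c.σ * c.μ.real A - 2 * Lm (c.U w) (c.W w) c.μ c.T c.β c.σ c.Dt A =
    ul (c.U w) fun m => avgP (c.W w) m fun p =>
      c.σ p * ∫ x in A, ∏ i, c.Db i (c.T^[(p - 1) * c.β i] x) ∂c.μ

/-- UA1: the inequality for the conditional variances, fixed modulus. -/
def T_UA1 : Prop := ∀ (c : CxE), 2 ≤ c.k → ∀ (w : ℕ) (I : Finset (Fin c.k)) (A : Set c.X),
  0 < w → c.γ ≤ dn (c.U w) (c.W w) c.σ → MeasurableSet[Inv c.T (c.W w)] A →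
  ∫ x in A, (c.γ * c.VI (Inv c.T (c.W w)) I x - c.VI (Inv c.T (c.W w)) I x ^ 2 / 2) ∂c.μ ≤
    4 * Lm (c.U w) (c.W w) c.μ c.T c.β c.σ c.Dt A +
    c.k * ∑ i, ∫ x, |(c.μ[c.aa i | Inv c.T (c.W w * Dlt c.β)]) x -
      (c.μ[c.aa i | Inv c.T (c.W w)]) x| ∂c.μ + (c.k : ℝ) ^ 2 / w

/-- UAS: the inequality for one conditional variance (no second moment). -/
def T_UAS : Prop := ∀ (c : CxE), 2 ≤ c.k → ∀ (w : ℕ) (i : Fin c.k) (A : Set c.X),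
  c.γ ≤ dn (c.U w) (c.W w) c.σ → MeasurableSet[Inv c.T (c.W w)] A →
  c.γ * ∫ x in A, c.aa i x ∂c.μ ≤ 4 * Lm (c.U w) (c.W w) c.μ c.T c.β c.σ c.Dt A

/-- UA2: the inequalities for the conditional variances, rational sets. -/
def T_UA2 : Prop := ∀ (c : CxE), 2 ≤ c.k →
  (∀ I : Finset (Fin c.k), ∀ᵐ x ∂c.μ, x ∈ c.Y →
    c.γ * c.VI (Rt c.T) I x - c.VI (Rt c.T) I x ^ 2 / 2 ≤ 4 * c.e x) ∧
  ∀ i : Fin c.k, ∀ᵐ x ∂c.μ, x ∈ c.Y → c.γ * (c.μ[c.aa i | Rt c.T]) x ≤ 4 * c.e x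

/-- UA3: finite combinatorics. -/
def T_UA3 : Prop := ∀ (k : ℕ) (γ : ℝ) (a : Fin k → ℝ), 0 < γ → γ ≤ 1 → (∀ i, 0 ≤ a i) →
  (∀ i, γ * a i ≤ 16 * κ₀ * γ ^ 3) →
  (∀ I : Finset (Fin k), γ * ∑ i ∈ I, a i - (∑ i ∈ I, a i) ^ 2 / 2 ≤ 16 * κ₀ * γ ^ 3) →
  ∑ i, a i ≤ 17 * κ₀ * γ ^ 2

/-- UCA: the first step. -/
def T_UCA : Prop := ∀ c : CxE, 2 ≤ c.k → c.CP (tow c.μ c.T (c.k - 1))

/-- UCB: the descent. -/
def T_UCB : Prop := ∀ (c : CxE) (Z : SA c.X), InvZ c.T Z → c.CP (nxt c.μ c.T Z) → c.CP Z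

/-! ### Section 8 -/

/-- UEN: the last step. -/
def T_UEN : Prop := ∀ c : CxE, c.CP (triv c.X) → False

/-- UK1: one point. -/
def T_UK1 : Prop := ∀ c : Cx, c.k = 1 → False

/-- UEG: the ergodic theorem which we want. -/
def T_UEG : Prop := IsEmpty Cx

end Pool.Agent.H24.UG
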