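import Pool.Agent.H67.AG.T1
import Pool.Agent.H24.UG.T4

/-! UNIFORM LOCAL GAP (`MP_c59857_nt`): rows UEG and UEC. -/

set_option autoImplicit false

open MeasureTheory ProbabilityTheory Filter Topology Finset
open scoped Nat ENNReal

namespace Pool.Agent.H24.UG

open Pool.Agent.H67.AG (tow tow_zero tow_succ T_TW)

theorem pf_UEC (h : T_UER) : T_UEC := by
  intro c
  obtain ⟨e, h1, h2, h3, h4⟩ := h c
  exact ⟨{ c with e := e, em := h1, e0 := h2, eint := h3, elim := h4 }, rfl⟩

theorem pf_UEG (h0 : T_UEC) (h1 : T_UK1) (h2 : T_UCA) (h3 : T_UCB) (h4 : T_UEN) (h5 : T_TW) :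
    T_UEG := by
  refine ⟨fun c => ?_⟩
  obtain ⟨c', rfl⟩ := h0 c
  have hk := c'.kpos
  rcases Nat.lt_or_ge c'.k 2 with hlt | hge
  · exact h1 c'.toCx (by omega)
  · have hcp := h2 c' hge
    have key : ∀ j : ℕ, c'.CP (tow c'.μ c'.T j) → c'.CP (tow c'.μ c'.T 0) := by
      intro j
      induction j with
      | zero => exact fun h => h
      | succ j ih =>
        intro h
        rw [tow_succ] at h
        exact ih (h3 c' _ (h5 c'.X c'.μ c'.T c'.erg j) h)
    have h' := key _ hcp
    rw [tow_zero] at h'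
    exact h4 c' h'

end Pool.Agent.H24.UG
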