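import Pool.Agent.H24.UG.T4
import Pool.Agent.H24.AG.P3

/-!
UNIFORM LOCAL GAP (`MP_c59857_nt`): the row UP3 (the step of the tower which controls the averages
over subsets of the primes).
-/

set_option autoImplicit false

open MeasureTheory ProbabilityTheory Filter Topology Finset
open scoped Nat

namespace Pool.Agent.H24.UG

open Pool.Agent.H24.T2 (Pset box cub AA pset_eq AA_diam)
open Pool.Agent.H67.AG (Inv Rt Av SA kap JJ nxt tow InvZ avgP)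
open Pool.Agent.H24.AG (zp zp_natCast vv pow_arith T_VVD T_VCU T_VAV)

theorem cub_mono (k : ℕ) : ∀ (A A' : Finset ℤ) (t : Fin k → ℤ), A ⊆ A' → cub k A t ⊆ cub k A' t := by
  induction k with
  | zero => intro A A' t h; exact h
  | succ k ih =>
    intro A A' t h
    refine ih _ _ _ ?_
    intro n hn
    rw [Finset.mem_filter] at hn ⊢
    exact ⟨h hn.1, h hn.2⟩

/-- the sum over a set of primes as a sum over the positions -/
theorem sum_AA' {W m : ℕ} {S : Finset ℕ} (hW : 0 < W) (hS : S ⊆ Pset W m) (G : ℤ → ℝ) (F : ℕ → ℝ)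
    (h : ∀ p ∈ S, G (((p - 1) / W : ℕ) : ℤ) = F p) :
    ∑ u ∈ AA W S, G u = ∑ p ∈ S, F p := by
  unfold AA
  rw [Finset.sum_image]
  · exact Finset.sum_congr rfl h
  · intro p hp p' hp' hpp
    have h1 := (pset_eq hW (hS (Finset.mem_coe.1 hp))).2.2.2
    have h2 := (pset_eq hW (hS (Finset.mem_coe.1 hp'))).2.2.2
    have h3 : (p - 1) / W = (p' - 1) / W := by
      have : (((p - 1) / W : ℕ) : ℤ) = (((p' - 1) / W : ℕ) : ℤ) := hpp
      exact_mod_cast this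
    rw [← h1, ← h2, h3]

/-- P3 for subsets of the primes -/
theorem sub_P3 (hvd : T_VVD) (hcu : T_VCU) (hav : T_VAV) (X : Type) [MeasurableSpace X]
    [StandardBorelSpace X] (μ : Measure X)
    [IsProbabilityMeasure μ] (T : X ≃ᵐ X) (k W : ℕ) (β : Fin k → ℕ) (l : Fin k) (f₀ : X → ℝ)
    (ε : ℝ) (herg : Ergodic T μ) (hinj : Function.Injective β) (hW : 0 < W) (hWe : Even W)
    (hf₀ : Measurable f₀) (hf₀1 : ∀ x, |f₀ x| ≤ 1)
    (hce : μ[f₀ | (tow μ T (k - 1)).1] =ᵐ[μ] 0) (hε : 0 < ε) :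
    ∃ m₀ : ℕ, ∀ m, m₀ ≤ m → ∀ S ⊆ Pset W m, ∀ f : Fin k → X → ℝ, (∀ i, Measurable (f i)) →
      (∀ i x, |f i x| ≤ 1) → f l = f₀ →
      |∑ p ∈ S, ∫ x, ∏ i, f i (T^[(p - 1) * β i] x) ∂μ| ≤ ε * ((Pset W m).card : ℝ) := by
  obtain ⟨j, rfl⟩ : ∃ j, k = j + 1 := ⟨k - 1, by have := l.pos; omega⟩
  rw [Nat.add_sub_cancel] at hce
  have hT : MeasurePreserving T μ μ := herg.toMeasurePreserving
  obtain ⟨e, he⟩ : ∃ e : Equiv.Perm (Fin (j + 1)), e 0 = l := ⟨Equiv.swap 0 l, by simp⟩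
  obtain ⟨b, hb⟩ : ∃ b : Fin (j + 1) → ℤ, ∀ i, b i = (W : ℤ) * β (e i) := ⟨_, fun i => rfl⟩
  have hg : ∀ i : Fin j, b 0 - b i.succ ≠ 0 := by
    intro i h0
    have h1 : b 0 = b i.succ := sub_eq_zero.1 h0
    rw [hb, hb] at h1
    have h2 : (β (e 0) : ℤ) = β (e i.succ) := mul_left_cancel₀ (by exact_mod_cast hW.ne') h1
    have h3 : β (e 0) = β (e i.succ) := by exact_mod_cast h2
    exact (Fin.succ_ne_zero i).symm (e.injective (hinj h3))
  obtain ⟨C, hC, m₁, hcu⟩ := hcu W j hW hWe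
  obtain ⟨K, hK⟩ : ∃ K : ℝ, K = 3 ^ (2 ^ j - 1 - j) * √C := ⟨_, rfl⟩
  have hK0 : 0 ≤ K := by rw [hK]; positivity
  obtain ⟨η, hη⟩ : ∃ η : ℝ, η = (ε ^ (2 ^ j) / (K + 1)) ^ 2 := ⟨_, rfl⟩
  have hη0 : 0 < η := by rw [hη]; positivity
  have hKη : K * √η ≤ ε ^ (2 ^ j) := by
    rw [hη, Real.sqrt_sq (by positivity), mul_div_assoc', div_le_iff₀ (by linarith)]
    nlinarith [pow_pos hε (2 ^ j)]
  obtain ⟨N₀, hN₀⟩ := hav X μ T herg j (fun i => b 0 - b i.succ) f₀ η hg hf₀ hf₀1 hce hη0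
  refine ⟨max m₁ N₀, fun m hm S hS f hf hf1 hfl => ?_⟩
  obtain ⟨P, hP⟩ : ∃ P : ℝ, P = ((Pset W m).card : ℝ) := ⟨_, rfl⟩
  have hP0 : 0 ≤ P := by rw [hP]; positivity
  have hAA : AA W S ⊆ AA W (Pset W m) := Finset.image_subset_image hS
  have hsum : ∑ u ∈ AA W S, ∫ x, ∏ i, f (e i) (zp T (u * b i) x) ∂μ =
      ∑ p ∈ S, ∫ x, ∏ i, f i (T^[(p - 1) * β i] x) ∂μ := by
    refine sum_AA' hW hS _ _ fun p hp => ?_
    refine integral_congr_ae (Eventually.of_forall fun x => ?_)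
    change ∏ i, f (e i) (zp T ((((p - 1) / W : ℕ) : ℤ) * b i) x) =
      ∏ i, f i (T^[(p - 1) * β i] x)
    rw [← Equiv.prod_comp e (fun i => f i (T^[(p - 1) * β i] x))]
    refine Finset.prod_congr rfl fun i _ => ?_
    have h1 := (pset_eq hW (hS hp)).2.2.2
    have h2 : (((p - 1) / W : ℕ) : ℤ) * b i = (((p - 1) * β (e i) : ℕ) : ℤ) := by
      have h3 : p - 1 = W * ((p - 1) / W) := by omega
      rw [hb, h3]
      rw [Nat.mul_div_cancel_left _ hW]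
      push_cast
      ring
    rw [h2, zp_natCast]
  have hdiff : ∀ u ∈ AA W S, ∀ u' ∈ AA W S, |u - u'| ≤ ((2 ^ m : ℕ) : ℤ) := fun u hu u' hu' =>
    Pool.Agent.H24.AG.AA_diff hW u (hAA hu) u' (hAA hu')
  have hmain := hvd X μ T j (2 ^ m) b (AA W S) (fun i => f (e i)) hT (fun i => hf _)
    (fun i => hf1 _) hdiff
  simp only [he, hfl] at hmain
  rw [hsum] at hmain
  have hcs : ∑ t ∈ box j (2 ^ m), ((cub j (AA W S) t).card : ℝ) *
      |vv μ T j (fun i => b 0 - b i.succ) f₀ t| ≤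
      √(∑ t ∈ box j (2 ^ m), ((cub j (AA W (Pset W m)) t).card : ℝ) ^ 2) *
      √(∑ t ∈ box j (2 ^ m), (vv μ T j (fun i => b 0 - b i.succ) f₀ t) ^ 2) := by
    have h0 : ∑ t ∈ box j (2 ^ m), ((cub j (AA W S) t).card : ℝ) *
        |vv μ T j (fun i => b 0 - b i.succ) f₀ t| ≤
        ∑ t ∈ box j (2 ^ m), ((cub j (AA W (Pset W m)) t).card : ℝ) *
        |vv μ T j (fun i => b 0 - b i.succ) f₀ t| := by
      refine Finset.sum_le_sum fun t _ => mul_le_mul_of_nonneg_right ?_ (abs_nonneg _)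
      exact_mod_cast Finset.card_le_card (cub_mono j _ _ t hAA)
    have h1 := Real.sum_mul_le_sqrt_mul_sqrt (box j (2 ^ m))
      (fun t => ((cub j (AA W (Pset W m)) t).card : ℝ))
      (fun t => |vv μ T j (fun i => b 0 - b i.succ) f₀ t|)
    simp only [sq_abs] at h1
    exact h0.trans h1
  have h2m : N₀ ≤ 2 ^ m := (le_of_max_le_right hm).trans Nat.lt_two_pow_self.le
  have hv := hN₀ (2 ^ m) h2m
  have hc := hcu m (le_of_max_le_left hm)
  rw [← hP] at hc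
  have hN1 : (1 : ℝ) ≤ 2 ^ m := one_le_pow₀ (by norm_num)
  have hv' : ∑ t ∈ box j (2 ^ m), (vv μ T j (fun i => b 0 - b i.succ) f₀ t) ^ 2 ≤
      η * (2 ^ m : ℝ) ^ j := by
    refine hv.trans (le_of_eq ?_)
    push_cast
    rfl
  have hfin := pow_arith j (2 ^ m) P C _ _ _ η hN1 hP0 hC.le hη0.le hc hv' (by
      refine hmain.trans ?_
      have h3 : ((2 : ℝ) * ((2 ^ m : ℕ) : ℝ) + 1) = 2 * 2 ^ m + 1 := by push_cast; rfl
      rw [h3]
      exact mul_le_mul_of_nonneg_left hcs (by positivity))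
  rw [← hP]
  have h5 : |∑ p ∈ S, ∫ x, ∏ i, f i (T^[(p - 1) * β i] x) ∂μ| ^ (2 ^ j) ≤
      (ε * P) ^ (2 ^ j) := by
    refine hfin.trans ?_
    rw [mul_pow, ← hK]
    exact mul_le_mul_of_nonneg_right hKη (by positivity)
  exact le_of_pow_le_pow_left₀ (by positivity) (by positivity) h5

theorem abs_sub_le_of_le {a b x y : ℝ} (h1 : |a| ≤ x) (h2 : |b| ≤ y) : |a - b| ≤ x + y := by
  rw [abs_le] at h1 h2 ⊢
  constructor <;> linarith

theorem pf_UP3 (hvd : T_VVD) (hcu : T_VCU) (hav : T_VAV) : T_UP3 := by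
  classical
  intro X _ _ μ _ T k W β l f₀ ε herg hinj hW hWe hf₀ hf₀1 hce hε
  obtain ⟨m₀, hm₀⟩ := sub_P3 hvd hcu hav X μ T k W β l f₀ (ε / 2) herg hinj hW hWe hf₀ hf₀1 hce
    (by linarith)
  refine ⟨m₀, fun m hm σ hσ f hf hf1 hfl => ?_⟩
  have h1 := hm₀ m hm ((Pset W m).filter fun p => σ p = 1) (Finset.filter_subset _ _) f hf hf1 hfl
  have h2 := hm₀ m hm ((Pset W m).filter fun p => σ p = -1) (Finset.filter_subset _ _) f hf hf1 hfl
  have h3 : ∑ p ∈ Pset W m, σ p * ∫ x, ∏ i, f i (T^[(p - 1) * β i] x) ∂μ =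
      ∑ p ∈ (Pset W m).filter (fun p => σ p = 1), ∫ x, ∏ i, f i (T^[(p - 1) * β i] x) ∂μ -
      ∑ p ∈ (Pset W m).filter (fun p => σ p = -1), ∫ x, ∏ i, f i (T^[(p - 1) * β i] x) ∂μ := by
    rw [Finset.sum_filter, Finset.sum_filter, ← Finset.sum_sub_distrib]
    refine Finset.sum_congr rfl fun p _ => ?_
    rcases hσ p with h | h | h <;> rw [h] <;> norm_num
  unfold avgP
  rw [h3, abs_div, abs_of_nonneg (Nat.cast_nonneg (α := ℝ) (Pset W m).card)]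
  rcases (Nat.cast_nonneg (α := ℝ) (Pset W m).card).eq_or_lt with h0 | h0
  · rw [← h0, div_zero]; exact hε.le
  rw [div_le_iff₀ h0]
  refine (abs_sub_le_of_le h1 h2).trans (le_of_eq ?_)
  ring

end Pool.Agent.H24.UG
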