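import Pool.Agent.H24.UG.Defs

/-!
UNIFORM LOCAL GAP (`MP_c59857_nt`): targets for section 6 (the switching lemma). The reference
systems `Sw`, `SwE` of `Pool.Agent.H67.AG` are used (their field `σ` is not).
-/

set_option autoImplicit false

open MeasureTheory ProbabilityTheory Filter Topology Finset
open scoped Nat ENNReal

namespace Pool.Agent.H24.UG

open Pool.Agent.H24.T2 (Pset)
open Pool.Agent.H67.AG (avgP ul Inv Rt Av SA kap JJ TT InvZ nxt triv tow XN PN TN XX PX TX prX Fac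
  Tup dl Dlt Mis bd κ₀ Sw SwE)

/-- the bound for the dichotomy of `ys` and `yt t`, on the set `A` -/
noncomputable def EX {d : Sw} (e : SwE d) (σ : ℕ → ℝ) (L L₂ : ℕ) (A : Set e.Ω) : ℝ :=
  2 * Lm d.U d.W e.P e.T d.β σ e.ys A +
  2 * d.k / (L : ℝ) * ∑ l ∈ range L, ∫ ω in A, e.mv l ω ∂e.P + e.E2 L A +
  d.k * ∑ i, e.E3 L₂ i A + (d.k : ℝ) ^ 2 / d.w * e.P.real A

/-- US2: the relation holds for the shifted selection, uniformly in the shift. -/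
def T_US2 : Prop := ∀ (d : Sw) (e : SwE d) (σ : ℕ → ℝ) (L t : ℕ) (A : Set e.Ω), Sgn σ → 0 < L →
  MeasurableSet[Inv e.T d.W] A →
  Lm d.U d.W e.P e.T d.β σ (e.yt t) A ≤ Lm d.U d.W e.P e.T d.β σ e.ys A +
    2 * d.k / (L : ℝ) * ∑ l ∈ range L, ∫ ω in A, e.mv l ω ∂e.P + e.E2 L A

/-- US3b: the dichotomy for the shifted selection, with an additive bound. -/
def T_US3b : Prop := ∀ (d : Sw) (e : SwE d) (σ : ℕ → ℝ) (γ : ℝ) (L L₂ t : ℕ) (A : Set e.Ω),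
  Sgn σ → γ ≤ dn d.U d.W σ → 0 < L → 0 < L₂ → MeasurableSet[Inv e.T d.W] A →
  ∫ ω in A, (γ * Mis e.P (Inv e.T d.W) e.ys (e.yt t) ω -
    Mis e.P (Inv e.T d.W) e.ys (e.yt t) ω ^ 2) ∂e.P ≤ EX e σ L L₂ A

/-- US4: a path with small steps does not cross the gap (abstract form). -/
def T_US4 : Prop := ∀ (Ω : Type) (m : MeasurableSpace Ω) [mΩ : MeasurableSpace Ω] (P : Measure Ω)
  [IsProbabilityMeasure P] (γ : ℝ) (M : ℕ → Ω → ℝ) (s₀ : Ω → ℝ) (E : Set Ω → ℝ) (A : Set Ω),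
  0 < γ → γ ≤ 1 → m ≤ mΩ →
  (∀ t, Measurable[m] (M t)) → (∀ t, Integrable (M t) P) →
  (∀ t, Integrable (fun ω => M t ω ^ 2) P) → Measurable[m] s₀ → MeasurableSet[m] A →
  (∀ᵐ ω ∂P, M 0 ω = 0) → (∀ t, ∀ᵐ ω ∂P, |M (t + 1) ω - M t ω| ≤ s₀ ω) →
  (∀ B, MeasurableSet[m] B → 0 ≤ E B) →
  (∀ B B', MeasurableSet[m] B → MeasurableSet[m] B' → Disjoint B B' → E (B ∪ B') = E B + E B') →
  (∀ t B, MeasurableSet[m] B → ∫ ω in B, (γ * M t ω - M t ω ^ 2) ∂P ≤ E B) →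
  P.real (A ∩ {ω | s₀ ω ≤ γ / 100 ∧ ∃ t, γ / 8 < M t ω}) ≤ 10 / γ ^ 2 * E A

/-- US4b: the bound is additive and the steps are small. -/
def T_US4b : Prop := ∀ (d : Sw) (e : SwE d) (σ : ℕ → ℝ) (L L₂ : ℕ), Sgn σ → 0 < L → 0 < L₂ →
  (∀ B, MeasurableSet B → 0 ≤ EX e σ L L₂ B) ∧
  (∀ B B', MeasurableSet B → MeasurableSet B' → Disjoint B B' →
    EX e σ L L₂ (B ∪ B') = EX e σ L L₂ B + EX e σ L L₂ B') ∧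
  (∀ᵐ ω ∂e.P, Mis e.P (Inv e.T d.W) e.ys (e.yt 0) ω = 0) ∧
  ∀ t, ∀ᵐ ω ∂e.P, |Mis e.P (Inv e.T d.W) e.ys (e.yt (t + 1)) ω -
    Mis e.P (Inv e.T d.W) e.ys (e.yt t) ω| ≤ d.k * (e.P[e.mv 1 | Inv e.T d.W]) ω

/-- US5: average over the shift. -/
def T_US5 : Prop := ∀ (d : Sw) (e : SwE d) (γ : ℝ), ∀ᵐ ω ∂e.P,
  (∀ t, Mis e.P (Inv e.T d.W) e.ys (e.yt t) ω ≤ γ / 8) →
    ∃ b, Mis e.P (Inv e.T d.W) e.ys (e.yb b) ω ≤ γ / 8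

/-- US6: the parameters. -/
def T_US6 : Prop := ∀ (d : Sw) (γ η : ℝ), 0 < γ → γ ≤ 1 → 0 < η →
  ∑ a, ∑ b, ∑ i, ∫ ω, |(d.P'[d.gg a b i | Inv d.T' (d.W * Dlt d.β)]) ω -
    (d.P'[d.gg a b i | Inv d.T' d.W]) ω| ∂d.P' ≤ η → (d.k : ℝ) ^ 2 / d.w ≤ η →
  ∃ L L₂ L₁ : ℕ, 0 < L ∧ 0 < L₂ ∧ ∀ e : SwE d,
    (∀ l ≤ L₁, e.P.real {ω | e.s (e.T^[d.W * l] ω) ≠ e.s ω} ≤ η) →
    (∀ σ : ℕ → ℝ, Sgn σ → ∀ A : Set e.Ω, MeasurableSet A → EX e σ L L₂ A ≤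
      2 * Lm d.U d.W e.P e.T d.β σ e.ys A + 12 * ((d.k : ℝ) + 1) ^ 2 * η) ∧
    e.P.real {ω | γ / 100 < d.k * (e.P[e.mv 1 | Inv e.T d.W]) ω} ≤ 100 * d.k * η / γ

/-- USW: the switching lemma. -/
def T_USW : Prop := ∀ (d : Sw) (γ η : ℝ), 0 < γ → γ ≤ 1 → 0 < η →
  ∑ a, ∑ b, ∑ i, ∫ ω, |(d.P'[d.gg a b i | Inv d.T' (d.W * Dlt d.β)]) ω -
    (d.P'[d.gg a b i | Inv d.T' d.W]) ω| ∂d.P' ≤ η → (d.k : ℝ) ^ 2 / d.w ≤ η →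
  ∃ L₁ : ℕ, ∀ e : SwE d, (∀ l ≤ L₁, e.P.real {ω | e.s (e.T^[d.W * l] ω) ≠ e.s ω} ≤ η) →
    ∀ σ : ℕ → ℝ, Sgn σ → γ ≤ dn d.U d.W σ → ∀ A : Set e.Ω, MeasurableSet[Inv e.T d.W] A →
      e.P.real (A ∩ {ω | ∀ b, γ / 8 < Mis e.P (Inv e.T d.W) e.ys (e.yb b) ω}) ≤
        20 / γ ^ 2 * Lm d.U d.W e.P e.T d.β σ e.ys A + 300 * ((d.k : ℝ) + 1) ^ 2 * η / γ ^ 2

end Pool.Agent.H24.UG
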