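import Pool.Agent.H24.UG.T4
import Pool.Agent.H24.UG.T6

/-!
UNIFORM LOCAL GAP (`MP_c59857_nt`): targets for section 7 (the descent).
-/

set_option autoImplicit false

open MeasureTheory ProbabilityTheory Filter Topology Finset
open scoped Nat ENNReal

namespace Pool.Agent.H24.UG

open Pool.Agent.H24.T2 (Pset)
open Pool.Agent.H40.AG (QQ dg)
open Pool.Agent.H67.AG (avgP ul Inv Rt Av SA kap JJ TT InvZ nxt triv tow XN PN TN XX PX TX prX Fac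
  Tup dl Dlt Mis bd κ₀ Sw SwE)

namespace CxE

variable (c : CxE)

/-- the conditional mismatch in the self-joining over `Z` -/
noncomputable def MR (Z : SA c.X) (q : c.X × c.X) : ℝ :=
  Mis (JJ c.μ Z) (Rt (TT c.T)) c.D1 c.D2 q

/-- close good points -/
def Rel (Z : SA c.X) : Set (c.X × c.X) := {q | q.1 ∈ c.Xg ∧ q.2 ∈ c.Xg ∧ c.MR Z q ≤ c.γ / 2}

/-- the mismatch density in a window of length `L` along `T ^ W` -/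
noncomputable def dL (W L : ℕ) (q : c.X × c.X) : ℝ := ∑ i, Av (TT c.T) W L (dl c.D1 c.D2 i) q

open Classical in
/-- the word of length `L` along `T ^ W` -/
noncomputable def wd (W L : ℕ) (x : c.X) : Fin c.k → Fin L → Bool :=
  fun i l => decide (c.Dt i (c.T^[W * l] x) = 1)

open Classical in
/-- the first reference which is close to the last point -/
noncomputable def sel (W L n : ℕ) (B : Set c.X) (q : XX c.X (n + 1)) : Fin (n + 1) :=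
  if h : (univ.filter fun b => c.dL W L (q.2.1 b, q.2.2) ≤ c.γ / 2).Nonempty ∧ q.1.1 ∈ B then
    (univ.filter fun b => c.dL W L (q.2.1 b, q.2.2) ≤ c.γ / 2).min' h.1 else 0

/-- the good configurations -/
def GG (Z : SA c.X) (W L n : ℕ) (B : Set c.X) : Set (XX c.X (n + 1)) :=
  {q | q.1.1 ∈ B ∧ (∃ b, c.dL W L (q.2.1 b, q.2.2) ≤ 2 * c.m1) ∧
    ∀ a b, a ≠ b → |c.dL W L (q.2.1 a, q.2.1 b) - c.MR Z (q.2.1 a, q.2.1 b)| ≤ c.γ / 100 ∧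
      (c.MR Z (q.2.1 a, q.2.1 b) ≤ c.m1 ∨ c.γ - c.m1 ≤ c.MR Z (q.2.1 a, q.2.1 b))}

/-- the bad configurations over `B` -/
def BG (Z : SA c.X) (W L n : ℕ) (B : Set c.X) : Set (XX c.X (n + 1)) :=
  {q | q.1.1 ∈ B ∧ q ∉ c.GG Z W L n B}

/-- the tuple of the reference `b` -/
def yX (n : ℕ) (b : Fin (n + 1)) (i : Fin c.k) (q : XX c.X (n + 1)) : ℝ := c.Dt i (q.2.1 b)

/-- the tuple of the last point -/
def yL (n : ℕ) (i : Fin c.k) (q : XX c.X (n + 1)) : ℝ := c.Dt i q.2.2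

/-- the tuple of the selected reference -/
noncomputable def yS (W L n : ℕ) (B : Set c.X) (i : Fin c.k) (q : XX c.X (n + 1)) : ℝ :=
  c.Dt i (q.2.1 (c.sel W L n B q))

end CxE

/-- UDM: the dichotomy on the good points. -/
def T_UDM : Prop := ∀ (c : CxE) (Z : SA c.X), InvZ c.T Z →
  ∀ᵐ q ∂(JJ c.μ Z), q.1 ∈ c.Xg → q.2 ∈ c.Xg →
    0 ≤ c.MR Z q ∧ (c.MR Z q ≤ c.m1 ∨ c.γ - c.m1 ≤ c.MR Z q)

/-- UCM: the mass of the classes. -/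
def T_UCM : Prop := ∀ (c : CxE) (Z : SA c.X), InvZ c.T Z → c.CP Z →
  ∃ (c₀ : ℝ) (X1 : Set c.X), 0 < c₀ ∧ c₀ ≤ 1 ∧ MeasurableSet[Rt c.T] X1 ∧ X1 ⊆ c.Xg ∧
    0 < c.μ.real X1 ∧ ∀ᵐ x ∂c.μ, x ∈ X1 → c₀ ≤ (kap c.μ Z x).real {x' | (x', x) ∈ c.Rel Z}

/-- UCW: choice of the modulus. -/
def T_UCW : Prop := ∀ (c : CxE) (Z : SA c.X) (X1 : Set c.X) (θ : ℝ), InvZ c.T Z →
  MeasurableSet[Rt c.T] X1 → X1 ⊆ c.Xg → 0 < θ →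
  ∃ (w : ℕ) (X1' : Set c.X), 0 < w ∧ c.γ ≤ dn (c.U w) (c.W w) c.σ ∧
    MeasurableSet[Inv c.T (c.W w)] X1' ∧ X1' ⊆ c.Y ∧
    c.μ.real (symmDiff X1 X1') ≤ θ ∧
    Lm (c.U w) (c.W w) c.μ c.T c.β c.σ c.Dt X1' ≤ 4 * κ₀ * c.γ ^ 3 * c.μ.real X1 + θ ∧
    ∫ q, |Mis (JJ c.μ Z) (Inv (TT c.T) (c.W w)) c.D1 c.D2 q - c.MR Z q| ∂(JJ c.μ Z) ≤ θ ∧
    (∀ i, ∫ q, |((JJ c.μ Z)[fun q => c.D1 i q * c.D2 i q | Inv (TT c.T) (c.W w * Dlt c.β)]) q -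
      ((JJ c.μ Z)[fun q => c.D1 i q * c.D2 i q | Inv (TT c.T) (c.W w)]) q| ∂(JJ c.μ Z) ≤ θ) ∧
    (c.k : ℝ) ^ 2 / w ≤ θ

/-- UCL: choice of the window. -/
def T_UCL : Prop := ∀ (c : CxE) (Z : SA c.X) (W : ℕ) (θ : ℝ), InvZ c.T Z → 0 < θ →
  ∃ L₀ : ℕ, ∀ L, L₀ ≤ L →
    ∫ q, |c.dL W L q - Mis (JJ c.μ Z) (Inv (TT c.T) W) c.D1 c.D2 q| ∂(JJ c.μ Z) ≤ θ

/-- UCR: choice of the law of the nearby points. -/
def T_UCR : Prop := ∀ (c : CxE) (Z : SA c.X) (W L : ℕ) (B : Set c.X) (θ : ℝ), InvZ c.T Z →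
  0 < W → MeasurableSet[Inv c.T W] B → 0 < θ →
  ∃ R : Measure (c.X × c.X), IsProbabilityMeasure R ∧ MeasurePreserving (TT c.T) R R ∧
    R ≪ JJ c.μ Z ∧ MeasurePreserving Prod.fst R c.μ ∧ MeasurePreserving Prod.snd R c.μ ∧
    ∫ q, ∑ v, |(kap c.μ (nxt c.μ c.T Z) q.1).real (c.wd W L ⁻¹' {v}) -
      (kap c.μ (nxt c.μ c.T Z) q.2).real (c.wd W L ⁻¹' {v})| ∂(R) ≤ θ ∧
    R.real {q | ¬ (q.1 ∈ B ↔ q.2 ∈ B)} ≤ θ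

/-- UGG: most configurations are good. -/
def T_UGG : Prop := ∀ (c : CxE) (Z : SA c.X) (c₀ : ℝ) (X1 B : Set c.X) (W L n : ℕ)
  (R : Measure (c.X × c.X)) [IsProbabilityMeasure R] (θ θ' θ'' : ℝ), InvZ c.T Z → Rt c.T ≤ Z.1 →
  0 < c₀ → c₀ ≤ 1 → MeasurableSet[Rt c.T] X1 → X1 ⊆ c.Xg →
  (∀ᵐ x ∂c.μ, x ∈ X1 → c₀ ≤ (kap c.μ Z x).real {x' | (x', x) ∈ c.Rel Z}) →
  0 < W → 0 < L → MeasurableSet[Inv c.T W] B → c.μ.real (symmDiff X1 B) ≤ θ →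
  ∫ q, |c.dL W L q - c.MR Z q| ∂(JJ c.μ Z) ≤ θ' →
  MeasurePreserving Prod.fst R c.μ → MeasurePreserving Prod.snd R c.μ →
  ∫ q, ∑ v, |(kap c.μ Z q.1).real (c.wd W L ⁻¹' {v}) -
    (kap c.μ Z q.2).real (c.wd W L ⁻¹' {v})| ∂(R) ≤ θ'' →
  (PX c.μ Z (n + 1) R).real (c.BG Z W L n B) ≤
    2 * θ + θ'' + (1 - c₀) ^ (n + 1) + (((n : ℝ) + 1) / c.m1 + 100 * ((n : ℝ) + 1) ^ 2 / c.γ) * θ'

/-- USV: the selection changes slowly. -/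
def T_USV : Prop := ∀ (c : CxE) (Z : SA c.X) (B : Set c.X) (W L n l : ℕ)
  (P : Measure (XX c.X (n + 1))) [IsProbabilityMeasure P],
  MeasurePreserving (TX c.T (n + 1)) P P → 0 < W → 0 < L → MeasurableSet[Inv c.T W] B →
  Measurable (c.sel W L n B) ∧
  (16 * (c.k : ℝ) * l ≤ c.γ * L →
    P.real {q | c.sel W L n B ((TX c.T (n + 1))^[W * l] q) ≠ c.sel W L n B q} ≤
    2 * P.real (c.BG Z W L n B)) ∧
  ∀ h g : ℕ, L = 16 * c.k * g * h → 1 ≤ g * c.γ → l ≤ L →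
    P.real {q | c.sel W L n B ((TX c.T (n + 1))^[W * l] q) ≠ c.sel W L n B q} ≤
    32 * c.k * g * P.real (c.BG Z W L n B)

/-- UMS: the mismatch of the selected reference and the last point. -/
def T_UMS : Prop := ∀ (c : CxE) (Z : SA c.X) (B : Set c.X) (W L n h g : ℕ)
  (P : Measure (XX c.X (n + 1))) [IsProbabilityMeasure P],
  MeasurePreserving (TX c.T (n + 1)) P P → 0 < W → 0 < L → L = 16 * c.k * g * h → 1 ≤ g * c.γ →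
  MeasurableSet[Inv c.T W] B →
  (∀ a b, a ≠ b → Integrable (fun q => c.MR Z (q.2.1 a, q.2.1 b)) P) →
  ∑ i, P.real {q | q.1.1 ∈ B ∧ c.Dt i (q.2.1 (c.sel W L n B q)) ≠ c.Dt i q.2.2} ≤
    3 * c.m1 * P.real {q | q.1.1 ∈ B} +
    ∑ a, ∑ b, (if a = b then 0 else
      ∫ q, |c.dL W L (q.2.1 a, q.2.1 b) - c.MR Z (q.2.1 a, q.2.1 b)| ∂P) +
    ((c.k : ℝ) + 32 * (c.k : ℝ) ^ 2 * g) * P.real (c.BG Z W L n B)

/-- ULD: comparison of the errors of two tuples. -/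
def T_ULD : Prop := ∀ (Ω : Type) [MeasurableSpace Ω] (P : Measure Ω) [IsProbabilityMeasure P]
  (T : Ω ≃ᵐ Ω) (k : ℕ) (β : Fin k → ℕ) (σ : ℕ → ℝ) (W : ℕ) (U : Ultrafilter ℕ)
  (y y' : Fin k → Ω → ℝ) (A : Set Ω), MeasurePreserving T P P → Sgn σ → 0 < W →
  (U : Filter ℕ) ≤ atTop → Tup y → Tup y' → MeasurableSet[Inv T W] A →
  Lm U W P T β σ y A ≤ Lm U W P T β σ y' A + ∑ i, P.real (A ∩ {ω | y i ω ≠ y' i ω})

/-- ULF: errors and factor maps, change of the set. -/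
def T_ULF : Prop := ∀ (Ω Ω' : Type) [MeasurableSpace Ω] [MeasurableSpace Ω'] (P : Measure Ω)
  [IsProbabilityMeasure P] (P' : Measure Ω') [IsProbabilityMeasure P'] (T : Ω ≃ᵐ Ω)
  (T' : Ω' ≃ᵐ Ω') (g : Ω → Ω') (k : ℕ) (β : Fin k → ℕ) (σ : ℕ → ℝ) (W : ℕ) (U : Ultrafilter ℕ)
  (y : Fin k → Ω' → ℝ) (A : Set Ω) (A' : Set Ω'), Sgn σ → Fac P T P' T' g → Tup y →
  MeasurableSet A → MeasurableSet A' →
  Lm U W P T β σ (fun i ω => y i (g ω)) A ≤ Lm U W P' T' β σ y A' + P.real (A \ g ⁻¹' A')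

/-- UFI: from a set with small mismatch to closeness. -/
def T_UFI : Prop := ∀ (c : CxE) (Z : SA c.X) (R : Measure (c.X × c.X)) [IsProbabilityMeasure R]
  (W : ℕ) (X1 : Set c.X) (B : Set (c.X × c.X)) (θ : ℝ), InvZ c.T Z →
  MeasurePreserving (TT c.T) R R → R ≪ JJ c.μ Z → 0 < W → MeasurableSet[Rt c.T] X1 →
  X1 ⊆ c.Xg → MeasurableSet[Inv (TT c.T) W] B →
  (∀ᵐ q ∂(R), q ∈ B → Mis R (Inv (TT c.T) W) c.D1 c.D2 q ≤ c.γ / 4) →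
  R.real (B \ {q | q.1 ∈ X1 ∧ q.2 ∈ X1}) ≤ θ → 2 * θ < R.real B → c.CP Z

/-- the intermediate statement -/
def Mid (c : CxE) (Z : SA c.X) : Prop := ∃ (w : ℕ) (X1 X1' : Set c.X) (R : Measure (c.X × c.X))
    (θ : ℝ), IsProbabilityMeasure R ∧ MeasurableSet[Rt c.T] X1 ∧ X1 ⊆ c.Xg ∧
    MeasurableSet[Inv c.T (c.W w)] X1' ∧ c.μ.real (symmDiff X1 X1') ≤ θ ∧
    MeasurePreserving (TT c.T) R R ∧ R ≪ JJ c.μ Z ∧ MeasurePreserving Prod.fst R c.μ ∧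
    MeasurePreserving Prod.snd R c.μ ∧ R.real {q | ¬ (q.1 ∈ X1' ↔ q.2 ∈ X1')} ≤ θ ∧
    8 * θ < (QQ c.μ (nxt c.μ c.T Z) R).real {q | q.1 ∈ X1' ∧
      Mis (QQ c.μ (nxt c.μ c.T Z) R) (Inv (TT c.T) (c.W w)) c.D1 c.D2 q ≤ c.γ / 4}

/-- the choice of all parameters, with the conclusion of the switching lemma -/
def Par (c : CxE) (Z : SA c.X) : Prop :=
  ∃ (n w L g : ℕ) (X1 X1' : Set c.X) (R : Measure (c.X × c.X)) (θ : ℝ),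
    0 < w ∧ 0 < L ∧ 0 ≤ θ ∧ (∃ h, L = 16 * c.k * g * h) ∧ 1 ≤ g * c.γ ∧ g * c.γ ≤ 2 ∧
    IsProbabilityMeasure R ∧ MeasurableSet[Rt c.T] X1 ∧ X1 ⊆ c.Xg ∧ 0 < c.μ.real X1 ∧
    MeasurableSet[Inv c.T (c.W w)] X1' ∧ c.μ.real (symmDiff X1 X1') ≤ θ ∧
    MeasurePreserving (TT c.T) R R ∧ R ≪ JJ c.μ Z ∧ MeasurePreserving Prod.fst R c.μ ∧
    MeasurePreserving Prod.snd R c.μ ∧ R.real {q | ¬ (q.1 ∈ X1' ↔ q.2 ∈ X1')} ≤ θ ∧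
    Lm (c.U w) (c.W w) c.μ c.T c.β c.σ c.Dt X1' ≤ 4 * κ₀ * c.γ ^ 3 * c.μ.real X1 + θ ∧
    ∫ q, |c.dL (c.W w) L q - c.MR (nxt c.μ c.T Z) q| ∂(JJ c.μ (nxt c.μ c.T Z)) ≤ θ ∧
    (PX c.μ (nxt c.μ c.T Z) (n + 1) R).real (c.BG (nxt c.μ c.T Z) (c.W w) L n X1') ≤
      c.γ ^ 4 * c.μ.real X1 / (10 ^ 7 * ((c.k : ℝ) + 1) ^ 2) ∧
    θ * (10 ^ 7 * ((n : ℝ) + 1) ^ 2 * ((c.k : ℝ) + 1) ^ 2) ≤ c.γ ^ 4 * c.μ.real X1 ∧
    (PX c.μ (nxt c.μ c.T Z) (n + 1) R).real ({q | q.1.1 ∈ X1'} ∩ {q | ∀ b, c.γ / 8 <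
      Mis (PX c.μ (nxt c.μ c.T Z) (n + 1) R) (Inv (TX c.T (n + 1)) (c.W w))
        (c.yS (c.W w) L n X1') (c.yX n b) q}) ≤
      20 / c.γ ^ 2 * Lm (c.U w) (c.W w) (PX c.μ (nxt c.μ c.T Z) (n + 1) R) (TX c.T (n + 1)) c.β c.σ
        (c.yS (c.W w) L n X1') {q | q.1.1 ∈ X1'} + c.μ.real X1 / 100

/-- UC0: the choice of the parameters. -/
def T_UC0 : Prop := ∀ (c : CxE) (Z : SA c.X), InvZ c.T Z → c.CP (nxt c.μ c.T Z) → Par c Z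

/-- UC1: the computation. -/
def T_UC1 : Prop := ∀ (c : CxE) (Z : SA c.X), InvZ c.T Z → Par c Z → Mid c Z

/-- UC2: the end of the descent. -/
def T_UC2 : Prop := ∀ (c : CxE) (Z : SA c.X), InvZ c.T Z → Mid c Z → c.CP Z

end Pool.Agent.H24.UG
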