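import Pool.Agent.H67.AG.AllF
import Pool.Agent.H50.AG.CPL
import Pool.Agent.H50.AG.MRC
import Pool.Agent.H1.UG.US5
import Pool.Agent.H13.UG.UC2
import Pool.Agent.H14.UG.UDR
import Pool.Agent.H24.UG.UC1
import Pool.Agent.H24.UG.UEG
import Pool.Agent.H24.UG.UFI
import Pool.Agent.H24.UG.UNC
import Pool.Agent.H24.UG.UP3
import Pool.Agent.H26.UG.UPT
import Pool.Agent.H33.UG.UAS
import Pool.Agent.H35.ULG.UCA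
import Pool.Agent.H36.UG.UDM
import Pool.Agent.H36.UG.UK1
import Pool.Agent.H37.UG.UA1
import Pool.Agent.H37.UG.UA2
import Pool.Agent.H38.UG.UCT
import Pool.Agent.H39.UG.UA0
import Pool.Agent.H40.UG.ULD
import Pool.Agent.H41.UG.UNS
import Pool.Agent.H41.UG.USY
import Pool.Agent.H56.UG.US4b
import Pool.Agent.H59.UG.UDW
import Pool.Agent.H6.UG.UR1
import Pool.Agent.H60.UG.US2
import Pool.Agent.H60.UG.US3b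
import Pool.Agent.H61.UG.UCM
import Pool.Agent.H63.UG.USV
import Pool.Agent.H67.UG.UC0
import Pool.Agent.H67.UG.USW
import Pool.Agent.H68.ULG.UER
import Pool.Agent.H68.ULG.ULE
import Pool.Agent.H70.UG.UCL
import Pool.Agent.H72.UG.UA3
import Pool.Agent.H75.UG.UEN
import Pool.Agent.H75.UG.UMS
import Pool.Agent.H78.UG.UR2
import Pool.Agent.H85.ULG.US6
import Pool.Agent.H94.UG.UCW
import Pool.Agent.H94.UG.UGG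
import Pool.Agent.H98.UG.US4
import Pool.Agent.H99.UG.UCR
import Pool.Agent.H99.UG.ULF
import Pool.Agent.H99.UG.UNU

/-!
UNIFORM LOCAL GAP (`MP_c59857_nt`): assembly.
-/

set_option autoImplicit false

namespace Pool.Agent.H24.UG.AllU

open Pool.Agent.H24.UG

theorem u_UP3 : T_UP3 :=
  Pool.Agent.H24.UG.pf_UP3 Pool.Agent.H67.AG.AllF.c_VVD Pool.Agent.H67.AG.AllF.c_VCU Pool.Agent.H67.AG.AllF.c_VAV

theorem u_UDW : T_UDW :=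
  Pool.Agent.H59.UG.pf_UDW Pool.Agent.H67.AG.AllF.c_UL Pool.Agent.H67.AG.AllF.c_PI

theorem u_ULE : T_ULE :=
  Pool.Agent.H68.ULG.pf_ULE Pool.Agent.H67.AG.AllF.c_DU

theorem u_UDR : T_UDR :=
  Pool.Agent.H14.UG.pf_UDR u_UDW u_ULE Pool.Agent.H67.AG.AllF.c_RA Pool.Agent.H67.AG.AllF.c_LV Pool.Agent.H67.AG.AllF.c_UL

theorem u_UER : T_UER :=
  Pool.Agent.H68.ULG.pf_UER Pool.Agent.H67.AG.AllF.c_UL

theorem u_UEC : T_UEC :=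
  Pool.Agent.H24.UG.pf_UEC u_UER

theorem u_UA0 : T_UA0 :=
  Pool.Agent.H39.UG.pf_UA0 Pool.Agent.H67.AG.AllF.c_UL Pool.Agent.H67.AG.AllF.c_PN u_UP3

theorem u_UA1 : T_UA1 :=
  Pool.Agent.H37.UG.pf_UA1 Pool.Agent.H67.AG.AllF.c_UL Pool.Agent.H67.AG.AllF.c_PN Pool.Agent.H67.AG.AllF.c_PI u_UA0

theorem u_UAS : T_UAS :=
  Pool.Agent.H33.UG.pf_UAS Pool.Agent.H67.AG.AllF.c_UL Pool.Agent.H67.AG.AllF.c_PN u_UA0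

theorem u_UA2 : T_UA2 :=
  Pool.Agent.H37.UG.pf_UA2 u_UA1 u_UAS u_ULE Pool.Agent.H67.AG.AllF.c_RA Pool.Agent.H67.AG.AllF.c_LV

theorem u_UA3 : T_UA3 :=
  Pool.Agent.H72.UG.pf_UA3

theorem u_UCA : T_UCA :=
  Pool.Agent.H35.ULG.pf_UCA u_UA2 u_UA3 Pool.Agent.H67.AG.AllF.c_J1 Pool.Agent.H67.AG.AllF.c_J2 Pool.Agent.H67.AG.AllF.c_J3 Pool.Agent.H67.AG.AllF.c_J4 Pool.Agent.H67.AG.AllF.c_NXI Pool.Agent.H67.AG.AllF.c_TW Pool.Agent.H67.AG.AllF.c_NR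

theorem u_US2 : T_US2 :=
  Pool.Agent.H60.UG.pf_US2 Pool.Agent.H67.AG.AllF.c_UL Pool.Agent.H67.AG.AllF.c_PN

theorem u_US3b : T_US3b :=
  Pool.Agent.H60.UG.pf_US3b u_UDW u_US2 Pool.Agent.H67.AG.AllF.c_S3

theorem u_US4 : T_US4 :=
  Pool.Agent.H98.UG.pf_US4

theorem u_US4b : T_US4b :=
  Pool.Agent.H56.UG.pf_US4b Pool.Agent.H67.AG.AllF.c_UL Pool.Agent.H67.AG.AllF.c_EC

theorem u_US5 : T_US5 :=
  Pool.Agent.H1.UG.pf_US5 Pool.Agent.H67.AG.AllF.c_ME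

theorem u_US6 : T_US6 :=
  Pool.Agent.H85.ULG.pf_US6 Pool.Agent.H67.AG.AllF.c_UL Pool.Agent.H67.AG.AllF.c_ME Pool.Agent.H67.AG.AllF.c_NA Pool.Agent.H67.AG.AllF.c_S1

theorem u_USW : T_USW :=
  Pool.Agent.H67.UG.pf_USW u_US3b u_US4 u_US4b u_US5 u_US6

theorem u_UCM : T_UCM :=
  Pool.Agent.H61.UG.pf_UCM Pool.Agent.H67.AG.AllF.c_CK Pool.Agent.H67.AG.AllF.c_J1 Pool.Agent.H67.AG.AllF.c_J2

theorem u_UCW : T_UCW :=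
  Pool.Agent.H94.UG.pf_UCW Pool.Agent.H67.AG.AllF.c_UL Pool.Agent.H67.AG.AllF.c_LV Pool.Agent.H67.AG.AllF.c_RS u_ULE Pool.Agent.H67.AG.AllF.c_J2 Pool.Agent.H67.AG.AllF.c_J3

theorem u_UCL : T_UCL :=
  Pool.Agent.H70.UG.pf_UCL Pool.Agent.H67.AG.AllF.c_ME Pool.Agent.H67.AG.AllF.c_J2 Pool.Agent.H67.AG.AllF.c_J3

theorem u_UCR : T_UCR :=
  Pool.Agent.H99.UG.pf_UCR Pool.Agent.H67.AG.AllF.c_AP Pool.Agent.H67.AG.AllF.c_NXI Pool.Agent.H67.AG.AllF.c_QM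

theorem u_UDM : T_UDM :=
  Pool.Agent.H36.UG.pf_UDM u_UDR Pool.Agent.H67.AG.AllF.c_TRI Pool.Agent.H67.AG.AllF.c_J2 Pool.Agent.H67.AG.AllF.c_J3

theorem u_UGG : T_UGG :=
  Pool.Agent.H94.UGG.pf_UGG u_UDM Pool.Agent.H67.AG.AllF.c_PNL Pool.Agent.H67.AG.AllF.c_PXL Pool.Agent.H67.AG.AllF.c_MEM Pool.Agent.H67.AG.AllF.c_RPC Pool.Agent.H67.AG.AllF.c_NCO Pool.Agent.H67.AG.AllF.c_DGJ

theorem u_USV : T_USV :=
  Pool.Agent.H63.UG.pf_USV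

theorem u_UC0 : T_UC0 :=
  Pool.Agent.H67.UG.pf_UC0 u_UCM u_UCW u_UCL u_UCR u_UGG u_USV u_USW Pool.Agent.H67.AG.AllF.c_NA Pool.Agent.H67.AG.AllF.c_NXI Pool.Agent.H67.AG.AllF.c_J2 Pool.Agent.H67.AG.AllF.c_J3 Pool.Agent.H67.AG.AllF.c_PNL Pool.Agent.H67.AG.AllF.c_PNT Pool.Agent.H67.AG.AllF.c_PXL Pool.Agent.H67.AG.AllF.c_PXT Pool.Agent.H67.AG.AllF.c_PXF

theorem u_UMS : T_UMS :=
  Pool.Agent.H75.UG.MS.pf_UMS u_USV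

theorem u_ULD : T_ULD :=
  Pool.Agent.H40.UG.pf_ULD Pool.Agent.H67.AG.AllF.c_UL Pool.Agent.H67.AG.AllF.c_PN

theorem u_ULF : T_ULF :=
  Pool.Agent.H99.UG.pf_ULF Pool.Agent.H67.AG.AllF.c_UL

theorem u_UC1 : T_UC1 :=
  Pool.Agent.H24.UG.pf_UC1 Pool.Agent.H67.AG.AllF.c_NXI Pool.Agent.H67.AG.AllF.c_TRI Pool.Agent.H67.AG.AllF.c_MN u_UMS u_USV u_ULD u_ULF Pool.Agent.H67.AG.AllF.c_PNL Pool.Agent.H67.AG.AllF.c_PXL Pool.Agent.H67.AG.AllF.c_PXT Pool.Agent.H67.AG.AllF.c_PXF Pool.Agent.H67.AG.AllF.c_MEM Pool.Agent.H67.AG.AllF.c_QQT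

theorem u_UFI : T_UFI :=
  Pool.Agent.H24.UG.pf_UFI Pool.Agent.H67.AG.AllF.c_TRI Pool.Agent.H67.AG.AllF.c_MC Pool.Agent.H67.AG.AllF.c_J2 Pool.Agent.H67.AG.AllF.c_J3

theorem u_UC2 : T_UC2 :=
  Pool.Agent.H13.UG.pf_UC2 Pool.Agent.H67.AG.AllF.c_NXI u_UFI Pool.Agent.H67.AG.AllF.c_MEM Pool.Agent.H67.AG.AllF.c_PXL Pool.Agent.H67.AG.AllF.c_QQA Pool.Agent.H67.AG.AllF.c_QQT

theorem u_UK1 : T_UK1 :=
  Pool.Agent.H36.UG.pf_UK1 Pool.Agent.H67.AG.AllF.c_UL Pool.Agent.H67.AG.AllF.c_PN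

theorem u_UCB : T_UCB := fun c Z hZ hcp => u_UC2 c Z hZ (u_UC1 c Z hZ (u_UC0 c Z hZ hcp))

theorem u_UEN : T_UEN :=
  Pool.Agent.H75.UG.pf_UEN u_UDR Pool.Agent.H67.AG.AllF.c_TRI Pool.Agent.H67.AG.AllF.c_MN Pool.Agent.H67.AG.AllF.c_JT Pool.Agent.H67.AG.AllF.c_CL Pool.Agent.H67.AG.AllF.c_PM Pool.Agent.H67.AG.AllF.c_PE Pool.Agent.H67.AG.AllF.c_AI Pool.Agent.H67.AG.AllF.c_RS Pool.Agent.H67.AG.AllF.c_DU Pool.Agent.H67.AG.AllF.c_J2 Pool.Agent.H67.AG.AllF.c_J3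

theorem u_UEG : T_UEG :=
  Pool.Agent.H24.UG.pf_UEG u_UEC u_UK1 u_UCA u_UCB u_UEN Pool.Agent.H67.AG.AllF.c_TW

theorem u_UCT : T_UCT :=
  Pool.Agent.H38.UG.pf_UCT

theorem u_UNA : T_UNA :=
  Pool.Agent.H24.UG.pf_UNA

theorem u_UNS : T_UNS :=
  Pool.Agent.H41.UG.pf_UNS

theorem u_UNC : T_UNC :=
  Pool.Agent.H24.UG.pf_UNC u_UNS u_UNA

theorem u_UNU : T_UNU :=
  Pool.Agent.H99.UG.pf_UNU Pool.Agent.H50.AG.pf_CPL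

theorem u_UPT : T_UPT :=
  Pool.Agent.H26.UG.pf_UPT

theorem u_UR1 : T_UR1 :=
  Pool.Agent.H6.UG.pf_UR1 Pool.Agent.H50.AG.pf_MRC

theorem u_UR2 : T_UR2 :=
  Pool.Agent.H78.UG.pf_UR2

theorem u_USY : T_USY :=
  Pool.Agent.H41.UG.pf_USY u_UNC u_UNU u_UPT

theorem cx_false (c : Cx) : False := u_UEG.false c

/-- the local statement, uniform in the number of points -/
theorem locU : LocU := Pool.Agent.H24.UG.locU u_USY u_UR1 u_UR2 u_UCT cx_false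

end Pool.Agent.H24.UG.AllU
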