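import Pool.Agent.H24.UG.TLU
import Pool.Agent.H24.UG.AllU
import Pool.Agent.H28.MCL.All

/-!
UNIFORM LOCAL GAP (`MP_c59857_nt`): the row TLU of the project MCL, closed.
-/

set_option autoImplicit false

namespace Pool.Agent.H24.UG

open Pool.Agent.H28.MCL

theorem tlU : T_TLU :=
  tlu AllU.locU All.x_LDB All.x_LDM All.x_BLK All.x_GLU

end Pool.Agent.H24.UG
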