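import Pool.Agent.H67.AG.T7

/-!
UNIFORM LOCAL GAP (`MP_c59857_nt`): definitions. The relation holds with a sign `σ p` which
depends on the prime `p` and may vanish. Old notions (`Pool.Agent.H67.AG`) are used where the sign
does not occur.
-/

set_option autoImplicit false

open MeasureTheory ProbabilityTheory Filter Topology Finset
open scoped Nat ENNReal

namespace Pool.Agent.H24.UG

open Pool.Agent.H24.T2 (Pset)
open Pool.Agent.H67.AG (avgP ul Inv Rt Av SA kap JJ TT InvZ nxt triv tow XN PN TN XX PX TX prX Fac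
  Tup dl Dlt Mis bd κ₀ Sw SwE)

/-- sign functions -/
def Sgn (σ : ℕ → ℝ) : Prop := ∀ p, σ p = 0 ∨ σ p = 1 ∨ σ p = -1

/-- the asymptotic density of the primes with a sign -/
noncomputable def dn (U : Ultrafilter ℕ) (W : ℕ) (σ : ℕ → ℝ) : ℝ :=
  ul U fun m => avgP W m fun p => |σ p|

/-- the asymptotic error of the relation on the set `A` -/
noncomputable def Lm {Ω : Type} [MeasurableSpace Ω] {k : ℕ} (U : Ultrafilter ℕ) (W : ℕ)
    (P : Measure Ω) (T : Ω ≃ᵐ Ω) (β : Fin k → ℕ) (σ : ℕ → ℝ) (y : Fin k → Ω → ℝ) (A : Set Ω) : ℝ :=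
  ul U fun m => avgP W m fun p => |σ p| * P.real (A ∩ bd T β (σ p) y p)

/-! ### the data -/

/-- the data for the contradiction -/
structure Cx where
  X : Type
  [mX : MeasurableSpace X]
  [sX : StandardBorelSpace X]
  μ : Measure X
  [pμ : IsProbabilityMeasure μ]
  T : X ≃ᵐ X
  erg : Ergodic T μ
  D : X → ℝ
  Dm : Measurable D
  Dv : ∀ x, D x = 1 ∨ D x = -1
  mr : ∀ W, 0 < W → μ[D | Inv T W] =ᵐ[μ] 0
  k : ℕ
  kpos : 0 < k
  Q : ℕ
  Qpos : 0 < Q
  Qev : Even Q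
  β : Fin k → ℕ
  inj : Function.Injective β
  σ : ℕ → ℝ
  σv : Sgn σ
  γ : ℝ
  γ0 : 0 < γ
  γ1 : γ ≤ 1
  Y : Set X
  Ym : MeasurableSet Y
  Yinv : T^[Q] ⁻¹' Y = Y
  Ypos : 0 < μ.real Y
  V : Ultrafilter ℕ
  hV : (V : Filter ℕ) ≤ atTop
  U : ℕ → Ultrafilter ℕ
  hU : ∀ w, (U w : Filter ℕ) ≤ atTop
  gam : ∀ᶠ w in (V : Filter ℕ), γ ≤ dn (U w) (Q * w !) σ
  rel : ∀ᶠ w in (V : Filter ℕ), ul (U w) (fun m => avgP (Q * w !) m fun p =>
    |σ p| * μ.real (Y ∩ {x | ∏ i, D (T^[p * β i] x) ≠ σ p})) ≤ κ₀ * γ ^ 3 * μ.real Y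

namespace Cx

variable (c : Cx)

instance : MeasurableSpace c.X := c.mX
instance : StandardBorelSpace c.X := c.sX
instance : IsProbabilityMeasure c.μ := c.pμ

/-- the modulus -/
def W (w : ℕ) : ℕ := c.Q * w !

/-- the tuple of a point -/
def Dt (i : Fin c.k) (x : c.X) : ℝ := c.D (c.T^[c.β i] x)

/-- the tuple of the first point of a pair -/
def D1 (i : Fin c.k) (q : c.X × c.X) : ℝ := c.Dt i q.1

/-- the tuple of the second point of a pair -/
def D2 (i : Fin c.k) (q : c.X × c.X) : ℝ := c.Dt i q.2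

/-- the threshold of the dichotomy -/
noncomputable def m1 : ℝ := 81 / 100000 * c.γ ^ 2

end Cx

/-- the data with the density of the errors -/
structure CxE extends Cx where
  e : X → ℝ
  em : Measurable[Rt T] e
  e0 : ∀ x, 0 ≤ e x ∧ e x ≤ 1
  eint : ∫ x in Y, e x ∂μ ≤ κ₀ * γ ^ 3 * μ.real Y
  elim : ∀ ψ : X → ℝ, Measurable[Rt T] ψ → (∀ x, |ψ x| ≤ 1) →
    Tendsto (fun w => ul (U w) fun m => avgP (Q * w !) m fun p =>
      |σ p| * ∫ x in Y ∩ bd T β (σ p) (fun i x => D (T^[β i] x)) p, ψ x ∂μ) (V : Filter ℕ)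
      (𝓝 (∫ x in Y, ψ x * e x ∂μ))

namespace CxE

variable (c : CxE)

/-- the good points -/
def Xg : Set c.X := {x | x ∈ c.Y ∧ c.e x ≤ 4 * κ₀ * c.γ ^ 3}

/-- closeness has positive mass in the relatively independent self-joining over `Z` -/
def CP (Z : SA c.X) : Prop :=
  0 < (JJ c.μ Z).real {q | q.1 ∈ c.Xg ∧ q.2 ∈ c.Xg ∧
    Mis (JJ c.μ Z) (Rt (TT c.T)) c.D1 c.D2 q ≤ c.γ / 2}

end CxE

end Pool.Agent.H24.UG
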