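import Pool.Agent.H80.AG.Targets9
import Pool.Agent.H27.T2.FE
import Pool.Agent.H24.UG.Defs

/-!
UNIFORM LOCAL GAP (`MP_c59857_nt`): definitions and targets for section 9 (from the failure of the
local statement to the data).
-/

set_option autoImplicit false

open MeasureTheory ProbabilityTheory Filter Topology Finset
open scoped Nat ENNReal

namespace Pool.Agent.H24.UG

open Pool.Agent.H24.MR (lam FinAddInv)
open Pool.Agent.H24.T2 (Pset rel MRprop)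
open Pool.Agent.H27.T2 (LocP)
open Pool.Agent.H67.AG (avgP ul Inv κ₀)
open Pool.Agent.H80.AG (sg T_CPL T_MRC)

/-- the hypotheses of the local statement -/
structure LH (k : ℕ) (δ η : ℝ) (Q c : ℕ) (β : Fin k → ℕ) (μ : Set ℕ → ℝ) (σ : ℕ → ℕ → ℤ) :
    Prop where
  Qpos : 0 < Q
  Qev : Even Q
  inj : Function.Injective β
  fa : FinAddInv μ
  mr : MRprop μ
  val : ∀ p y, σ p y = 0 ∨ σ p y = 1 ∨ σ p y = -1
  cst : ∀ p : ℕ, p.Prime → p ≡ 1 [MOD Q] → μ {y | σ p y ≠ σ p (y + 1)} = 0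
  dns : ∀ p : ℕ, p.Prime → p ≡ 1 [MOD Q] → δ ≤ μ {y | σ p y ≠ 0}
  rln : ∀ p : ℕ, p.Prime → p ≡ 1 [MOD Q] →
    μ {y | y ≡ c [MOD Q] ∧ p ∣ y ∧ σ p y ≠ 0 ∧ rel β lam p y ≠ (σ p y : ℝ)} ≤ η / (p * Q)

/-- decoupling at the scale `m` for the modulus `Q w!`, for all classes mod `Q` and all choices of
signs -/
def DecS (Q : ℕ) {k : ℕ} (β : Fin k → ℕ) (w i : ℕ) (ν : Set ℕ → ℝ) (m : ℕ) : Prop :=
  ∀ (c : ℕ) (s : ℕ → ℝ), Sgn s →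
    ∑ p ∈ Pset (Q * w !) m, |s p| * ν {y | y ≡ c [MOD Q] ∧ rel β lam p y ≠ s p} ≤
      10 * ∑ p ∈ Pset (Q * w !) m,
        |s p| * (p * ν {y | y ≡ c [MOD Q] ∧ p ∣ y ∧ rel β lam p y ≠ s p}) +
      2 / (((i : ℝ) + 1) * Q) * (Pset (Q * w !) m).card

/-- UNS: entropy decrement for the modulus `Q w!` (from `StatementEN2`). -/
def T_UNS : Prop := ∀ (Q k : ℕ) (β : Fin k → ℕ) (ρ : ℝ) (w i : ℕ), 0 < Q → 0 < ρ →
  ∃ (M : Finset ℕ) (wt : ℕ → ℝ),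
    (∀ m ∈ M, i ≤ m ∧ (Pset (Q * w !) m).Nonempty ∧ 0 ≤ wt m) ∧ ∑ m ∈ M, wt m = 1 ∧
    ∀ ν : Set ℕ → ℝ, FinAddInv ν → ∀ B ⊆ M, (∀ m ∈ B, ¬ DecS Q β w i ν m) → ∑ m ∈ B, wt m ≤ ρ

/-- UNA: the atoms of a finite partition which is asymptotically invariant. -/
def T_UNA : Prop := ∀ (μ : Set ℕ → ℝ) (ι : Type) [Fintype ι] (f : ℕ → ι), FinAddInv μ →
  μ {y | f y ≠ f (y + 1)} = 0 →
  (∀ A, μ A = ∑ v, μ (A ∩ f ⁻¹' {v})) ∧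
  ∀ v, 0 < μ (f ⁻¹' {v}) → FinAddInv fun A => μ (A ∩ f ⁻¹' {v}) / μ (f ⁻¹' {v})

/-- UNC: the choice of the scale, and the set of the atoms which decouple. -/
def T_UNC : Prop := ∀ (k : ℕ) (δ η : ℝ) (Q c : ℕ) (β : Fin k → ℕ) (μ : Set ℕ → ℝ)
  (σ : ℕ → ℕ → ℤ), LH k δ η Q c β μ σ → ∀ (ρ : ℝ) (w i : ℕ), 0 < ρ →
  ∃ (m : ℕ) (fl : ℕ → Bool), i ≤ m ∧ (Pset (Q * w !) m).Nonempty ∧
    μ {y | fl y = false} ≤ ρ ∧ μ {y | fl y ≠ fl (y + 1)} = 0 ∧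
    ∑ p ∈ Pset (Q * w !) m,
      μ {y | fl y = true ∧ σ p y ≠ 0 ∧ y ≡ c [MOD Q] ∧ rel β lam p y ≠ (σ p y : ℝ)} ≤
      (10 * η + 2 / ((i : ℝ) + 1)) / Q * (Pset (Q * w !) m).card

/-- UNU: the invariant measure which belongs to a finitely additive measure. -/
def T_UNU : Prop := ∀ (Ω : Type) [TopologicalSpace Ω] [CompactSpace Ω] [T2Space Ω]
  [TotallyDisconnectedSpace Ω] [SecondCountableTopology Ω] [MeasurableSpace Ω] [BorelSpace Ω]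
  (T : Ω ≃ₜ Ω) (μ : Set ℕ → ℝ) (pt : ℕ → Ω), FinAddInv μ → (∀ n, T (pt n) = pt (n + 1)) →
  ∃ P : Measure Ω, IsProbabilityMeasure P ∧ MeasurePreserving T P P ∧
    ∀ C : Set Ω, IsClopen C → P.real C = μ {n | pt n ∈ C}

/-! ### the symbolic space -/

/-- labels: flags of the pairs `(w, i)`, signs of the primes -/
abbrev Lb : Type := (ℕ × ℕ → Bool) × (ℕ → Fin 3)

/-- the symbolic space: signs, residue class, label process -/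
abbrev Om (Q : ℕ) : Type := (ℤ → Bool) × ZMod Q × (ℤ → Lb)

instance borelOm (Q : ℕ) [NeZero Q] : BorelSpace (Om Q) := by
  have h0 : BorelSpace Lb := Prod.borelSpace
  have h1 : BorelSpace (ℤ → Lb) := inferInstance
  have h2 : BorelSpace (ZMod Q × (ℤ → Lb)) := Prod.borelSpace
  exact Prod.borelSpace

/-- the shift -/
def sh (Q : ℕ) : Om Q ≃ₜ Om Q where
  toFun ω := (fun t => ω.1 (t + 1), ω.2.1 + 1, fun t => ω.2.2 (t + 1))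
  invFun ω := (fun t => ω.1 (t - 1), ω.2.1 - 1, fun t => ω.2.2 (t - 1))
  left_inv ω := by simp
  right_inv ω := by simp
  continuous_toFun := by fun_prop
  continuous_invFun := by fun_prop

/-- the shift as a measurable equivalence -/
def shM (Q : ℕ) [NeZero Q] : Om Q ≃ᵐ Om Q := (sh Q).toMeasurableEquiv

/-- the sign at time zero -/
def DD (Q : ℕ) (ω : Om Q) : ℝ := sg (ω.1 0)

/-- the value of a label -/
def sg3 (a : Fin 3) : ℝ := if a = 0 then 0 else if a = 1 then 1 else -1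

/-- the relation of the prime `p` fails for the sign `s` -/
def RB (Q : ℕ) {n : ℕ} (β : Fin n → ℕ) (p : ℕ) (s : ℝ) : Set (Om Q) :=
  {ω | ∏ j, DD Q ((sh Q)^[p * β j] ω) ≠ s}

/-- the flag of `(w, i)` is set -/
def FL (Q w i : ℕ) : Set (Om Q) := {ω | (ω.2.2 0).1 (w, i) = true}

/-- the prime `p` has a sign -/
def SN (Q p : ℕ) : Set (Om Q) := {ω | (ω.2.2 0).2 p ≠ 0}

/-- the flag of `(w, i)` changes -/
def FC (Q w i : ℕ) : Set (Om Q) := {ω | (ω.2.2 0).1 (w, i) ≠ (ω.2.2 1).1 (w, i)}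

/-- the sign of the prime `p` changes -/
def SC (Q p : ℕ) : Set (Om Q) := {ω | (ω.2.2 0).2 p ≠ (ω.2.2 1).2 p}

/-- the relation of the prime `p` fails for its own sign, in the class `c` -/
def RS (Q : ℕ) {n : ℕ} (β : Fin n → ℕ) (c : ZMod Q) (p : ℕ) : Set (Om Q) :=
  {ω | (ω.2.2 0).2 p ≠ 0 ∧ ω.2.1 = c ∧ ω ∈ RB Q β p (sg3 ((ω.2.2 0).2 p))}

open Classical in
/-- the point of the symbolic space which belongs to the natural number `n` -/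
noncomputable def ptO (Q : ℕ) (l : ℕ → Lb) (n : ℕ) : Om Q :=
  (fun t : ℤ => decide (0 ≤ (n : ℤ) + t → lam ((n : ℤ) + t).toNat = 1), (n : ZMod Q),
    fun t : ℤ => l ((n : ℤ) + t).toNat)

/-- UPT: the points of the symbolic space. -/
def T_UPT : Prop := ∀ (Q : ℕ) [NeZero Q] (l : ℕ → Lb),
  (∀ n, sh Q (ptO Q l n) = ptO Q l (n + 1)) ∧
  (∀ n, (ptO Q l n).2.1 = (n : ZMod Q) ∧ (ptO Q l n).2.2 0 = l n ∧
    (ptO Q l n).2.2 1 = l (n + 1)) ∧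
  (∀ n j, DD Q ((sh Q)^[j] (ptO Q l n)) = lam (n + j)) ∧
  (∀ (k : ℕ) (β : Fin k → ℕ) (p n : ℕ) (s : ℝ), ptO Q l n ∈ RB Q β p s ↔ rel β lam p n ≠ s) ∧
  (∀ w i : ℕ, IsClopen (FL Q w i) ∧ IsClopen (FC Q w i)) ∧
  (∀ p : ℕ, IsClopen (SN Q p) ∧ IsClopen (SC Q p)) ∧
  (∀ (k : ℕ) (β : Fin k → ℕ) (c : ZMod Q) (p w i : ℕ), IsClopen (FL Q w i ∩ RS Q β c p)) ∧
  ∀ (W h : ℕ) (ε : ℝ), IsClopen {ω : Om Q | ε ≤ |∑ y ∈ range h, DD Q ((sh Q)^[W * y] ω)|}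

/-- the measure on the symbolic space which comes from a failure of the local statement -/
structure SysP (Q : ℕ) [NeZero Q] {n : ℕ} (β : Fin n → ℕ) (c : ZMod Q) (δ η : ℝ) (m : ℕ → ℕ → ℕ)
    (P : Measure (Om Q)) : Prop where
  prob : IsProbabilityMeasure P
  inv : MeasurePreserving (shM Q) P P
  mi : ∀ w i, i ≤ m w i ∧ (Pset (Q * w !) (m w i)).Nonempty
  flag : ∀ w i, P (FC Q w i) = 0
  sign : ∀ p : ℕ, p.Prime → p ≡ 1 [MOD Q] → P (SC Q p) = 0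
  good : ∀ w i, 1 - δ / 4 ≤ P.real (FL Q w i)
  dense : ∀ p : ℕ, p.Prime → p ≡ 1 [MOD Q] → δ ≤ P.real (SN Q p)
  relation : ∀ w i, ∑ p ∈ Pset (Q * w !) (m w i), P.real (FL Q w i ∩ RS Q β c p) ≤
    (10 * η + 2 / ((i : ℝ) + 1)) / Q * (Pset (Q * w !) (m w i)).card
  mr : ∀ W : ℕ, 0 < W → ∀ ε : ℝ, 0 < ε → ∃ h₀ : ℕ, ∀ h, h₀ ≤ h →
    P.real {ω | ε * h ≤ |∑ y ∈ range h, DD Q ((shM Q)^[W * y] ω)|} ≤ ε

/-- USY: the measure on the symbolic space. -/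
def T_USY : Prop := ∀ (k : ℕ) (δ η : ℝ) (Q c : ℕ) [NeZero Q] (β : Fin k → ℕ) (μ : Set ℕ → ℝ)
  (σ : ℕ → ℕ → ℤ), 0 < δ → LH k δ η Q c β μ σ →
  ∃ (m : ℕ → ℕ → ℕ) (P : Measure (Om Q)), SysP Q β (c : ZMod Q) δ η m P

/-- UR1: ergodic components. -/
def T_UR1 : Prop := ∀ (Q n : ℕ) [NeZero Q] (β : Fin n → ℕ) (c : ZMod Q) (δ η : ℝ)
  (m : ℕ → ℕ → ℕ) (P : Measure (Om Q)), SysP Q β c δ η m P →
  ∃ κ : Kernel (Om Q) (Om Q), IsMarkovKernel κ ∧ (∀ B, MeasurableSet B → P B = ∫⁻ ω, κ ω B ∂P) ∧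
    ∀ᵐ ω ∂P, Ergodic (shM Q) (κ ω) ∧ (∀ W, 0 < W → (κ ω)[DD Q | Inv (shM Q) W] =ᵐ[κ ω] 0) ∧
      (∀ w i, κ ω (FC Q w i) = 0) ∧ ∀ p : ℕ, p.Prime → p ≡ 1 [MOD Q] → κ ω (SC Q p) = 0

/-- UR2: a component with many signs, on which the relation holds. -/
def T_UR2 : Prop := ∀ (Q n : ℕ) [NeZero Q] (β : Fin n → ℕ) (c : ZMod Q) (δ η : ℝ)
  (m : ℕ → ℕ → ℕ) (P : Measure (Om Q)), 0 < δ → 0 < η → SysP Q β c δ η m P →
  ∀ κ : Kernel (Om Q) (Om Q), IsMarkovKernel κ → (∀ B, MeasurableSet B → P B = ∫⁻ ω, κ ω B ∂P) →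
    ∀ S : Set (Om Q), (∀ᵐ ω ∂P, ω ∈ S) →
    ∃ ω ∈ S, ∃ᶠ w in atTop, ∃ᶠ i in atTop,
      δ / 4 * (Pset (Q * w !) (m w i)).card ≤
        ∑ p ∈ Pset (Q * w !) (m w i), (κ ω).real (FL Q w i ∩ SN Q p) ∧
      ∑ p ∈ Pset (Q * w !) (m w i), (κ ω).real (FL Q w i ∩ RS Q β c p) ≤
        48 * η / (δ * Q) * (Pset (Q * w !) (m w i)).card

/-- UCT: the data. -/
def T_UCT : Prop := ∀ (Q k : ℕ) [NeZero Q] (β : Fin (k + 1) → ℕ) (c : ZMod Q) (δ η : ℝ)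
  (m : ℕ → ℕ → ℕ) (ν : Measure (Om Q)), Even Q → Function.Injective β → 0 < δ → δ ≤ 1 → 0 < η →
  3072 * η ≤ κ₀ * δ ^ 4 → IsProbabilityMeasure ν → Ergodic (shM Q) ν →
  (∀ W, 0 < W → ν[DD Q | Inv (shM Q) W] =ᵐ[ν] 0) → (∀ w i, ν (FC Q w i) = 0) →
  (∀ p : ℕ, p.Prime → p ≡ 1 [MOD Q] → ν (SC Q p) = 0) →
  (∀ w i, i ≤ m w i ∧ (Pset (Q * w !) (m w i)).Nonempty) →
  (∃ᶠ w in atTop, ∃ᶠ i in atTop,
    δ / 4 * (Pset (Q * w !) (m w i)).card ≤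
      ∑ p ∈ Pset (Q * w !) (m w i), ν.real (FL Q w i ∩ SN Q p) ∧
    ∑ p ∈ Pset (Q * w !) (m w i), ν.real (FL Q w i ∩ RS Q β c p) ≤
      48 * η / (δ * Q) * (Pset (Q * w !) (m w i)).card) →
  Nonempty Cx

/-- the local statement with a constant which does not depend on `k` -/
def LocU : Prop := ∀ (k : ℕ) (δ : ℝ), 0 < k → 0 < δ → δ ≤ 1 → LocP k δ (κ₀ * δ ^ 4 / 3072)

/-- if the data are contradictory, then the local statement holds -/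
theorem locU (hS : T_USY) (h1 : T_UR1) (h2 : T_UR2) (hC : T_UCT) (hE : Cx → False) : LocU := by
  intro k δ hk hδ hδ1 Q c β hQ hQe hβ μ hμ hMR σ hσ hc hd hr
  have hη : 0 < κ₀ * δ ^ 4 / 3072 := by unfold κ₀; positivity
  obtain ⟨k, rfl⟩ : ∃ j, k = j + 1 := ⟨k - 1, by omega⟩
  have : NeZero Q := ⟨hQ.ne'⟩
  obtain ⟨m, P, hP⟩ := hS (k + 1) δ _ Q c β μ σ hδ ⟨hQ, hQe, hβ, hμ, hMR, hσ, hc, hd, hr⟩
  obtain ⟨κ, hκ, hdis, hae⟩ := h1 Q (k + 1) β c δ _ m P hP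
  obtain ⟨ω, hω, hfr⟩ := h2 Q (k + 1) β c δ _ m P hδ hη hP κ hκ hdis
    {ω | Ergodic (shM Q) (κ ω) ∧ (∀ W, 0 < W → (κ ω)[DD Q | Inv (shM Q) W] =ᵐ[κ ω] 0) ∧
      (∀ w i, κ ω (FC Q w i) = 0) ∧ ∀ p : ℕ, p.Prime → p ≡ 1 [MOD Q] → κ ω (SC Q p) = 0} hae
  have hpr : IsProbabilityMeasure (κ ω) := inferInstance
  obtain ⟨cx⟩ := hC Q k β c δ _ m (κ ω) hQe hβ hδ hδ1 hη (by linarith) hpr hω.1 hω.2.1
    hω.2.2.1 hω.2.2.2 hP.mi hfr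
  exact hE cx

end Pool.Agent.H24.UG
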