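import Pool.Agent.H24.MCL.TLL
import Pool.Agent.H24.UG.T9
import Pool.Agent.H28.MCL.TargetsU

/-!
UNIFORM LOCAL GAP (`MP_c59857_nt`): from the local statement `LocU` to the row TLU of the project
MCL.
-/

set_option autoImplicit false

open Finset Filter Topology

namespace Pool.Agent.H24.UG

open Pool.Agent.H24.MR (lam FinAddInv)
open Pool.Agent.H24.T2
open Pool.Agent.H27.T2
open Pool.Agent.H28.MCL
open Pool.Agent.H24.MCL (Lv_mono log_nonneg_of sum_ind finalB lam_val prod_pm)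
open Pool.Agent.H67.AG (κ₀)

theorem tl_core (hL : T_LDB) (hM : T_LDM) (hK : T_BLK) (hG : T_GLU) {k : ℕ} {δ η : ℝ}
    (hδ : 0 < δ) (hη : 0 < η) (hloc : LocP k (δ / 8) η) (β : Fin k → ℕ) {Q c : ℕ} (hQ : 0 < Q)
    (hQe : Even Q) (hβ : Function.Injective β) :
    ∃ h₀ : ℕ, ∀ h, h₀ ≤ h → Bd (ind (Bad (fun y => ∏ i, lam (y + β i)) (η / 2) Q c h)) δ := by
  classical
  by_contra hcon
  push Not at hcon
  have hQR : (0 : ℝ) < Q := by exact_mod_cast hQ
  have hf : ∀ n : ℕ, ∏ i, lam (n + β i) = 1 ∨ ∏ i, lam (n + β i) = -1 := fun n =>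
    prod_pm _ fun i => lam_val _
  obtain ⟨h₁, hh₁⟩ := hK (fun y => ∏ i, lam (y + β i)) (η / 2) δ Q c hf (by linarith) hδ hQ
  obtain ⟨x, y, τ, hx, hxy, hτ, hLv⟩ := hG (fun y => ∏ i, lam (y + β i)) Q c (δ / 2)
    (η / 2 / Q) (by positivity) (by
      intro i
      obtain ⟨h, hh, hB⟩ := hcon (max h₁ (3 * (i + 1)))
      obtain ⟨K, hKK⟩ := hh₁ h ((le_max_left _ _).trans hh)
      unfold Bd at hB
      push Not at hB
      obtain ⟨x, y, hx, hxy, hlt⟩ := hB (max K (max i 1))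
      have hxyK : K * x ≤ y := (Nat.mul_le_mul_right x (le_max_left _ _)).trans hxy
      have hxyi : i * x ≤ y :=
        (Nat.mul_le_mul_right x ((le_max_left _ _).trans (le_max_right _ _))).trans hxy
      have hl : 0 ≤ Real.log ((y : ℝ) / x) :=
        log_nonneg_of hx ((le_max_right _ _).trans (le_max_right _ _)) hxy
      rw [sum_ind] at hlt
      obtain ⟨τ, hτ⟩ := hKK x y hx hxyK (by
        refine lt_of_lt_of_eq hlt ?_
        apply Finset.sum_congr _ fun _ _ => rfl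
        ext n
        simp only [mem_filter])
      refine ⟨x, y, τ, hx, hxyi, Lv_mono ?_ hl hτ⟩
      have h3 : 3 * (i + 1) ≤ h := (le_max_right _ _).trans hh
      have h3' : (3 : ℝ) * (i + 1) ≤ h := by exact_mod_cast h3
      have hi : (0 : ℝ) < (i : ℝ) + 1 := by positivity
      rw [div_le_div_iff₀ (by linarith [mul_pos (by norm_num : (0:ℝ) < 3) hi]) hi]
      linarith)
  exact finalB hL hM hδ hη hloc β hQ hQe hβ x y τ hx hxy hτ hLv

/-- the row TLU -/
theorem tlu (hU : LocU) (hL : T_LDB) (hM : T_LDM) (hK : T_BLK) (hG : T_GLU) : T_TLU := by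
  refine ⟨κ₀ / (2 * 3072 * 8 ^ 4), by unfold κ₀; norm_num, ?_⟩
  intro δ hδ hδ1 k β Q a hk hQ hQe hβ
  have hη : 0 < κ₀ * (δ / 8) ^ 4 / 3072 := by unfold κ₀; positivity
  have h := tl_core hL hM hK hG hδ hη (hU k (δ / 8) hk (by linarith) (by linarith)) β
    (c := a) hQ hQe hβ
  have he : κ₀ * (δ / 8) ^ 4 / 3072 / 2 = κ₀ / (2 * 3072 * 8 ^ 4) * δ ^ 4 := by ring
  rwa [he] at h

end Pool.Agent.H24.UG
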